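import Pool.Agent.TPY.Targets
import Pool.Agent.TPM.MEA

set_option autoImplicit false

/-! TPY-CA: the mean at a prime which does not divide `p p'`. -/

namespace Pool.Agent.TPY

open Finset Filter Pool.Agent.Ell Pool.Agent.TPM Pool.Agent.TPX
open scoped BigOperators ComplexConjugate

namespace CA_

lemma xz_unit {ℓ i j : ℕ} (hℓ : ℓ.Prime) (φ : DirichletCharacter ℂ (ℓ ^ j)) {f : ℕ → ℂ}
    (hf : MB f) (t : ℝ) {n : ℤ} (hn : ¬ (ℓ : ℤ) ∣ n) :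
    xz f φ t (ℓ ^ i) n = φ (n : ZMod (ℓ ^ j)) := by
  have hg : Int.gcd n ((ℓ ^ i : ℕ) : ℤ) = 1 := by
    have hcop : Nat.Coprime n.natAbs ℓ := by
      rw [Nat.coprime_comm, Nat.Prime.coprime_iff_not_dvd hℓ]
      rwa [← Int.natCast_dvd]
    unfold Int.gcd
    rw [Int.natAbs_natCast]
    exact Nat.Coprime.pow_right _ hcop
  unfold xz
  rw [hg, hf.one]
  simp [nit]

lemma core {ℓ i j k p p' : ℕ} (hℓ : ℓ.Prime) (hj : 1 ≤ j) (hjk : j ≤ k)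
    (hp : ¬ ℓ ∣ p) (hp' : ¬ ℓ ∣ p') (a : ℤ) (φ : DirichletCharacter ℂ (ℓ ^ j))
    (f : ℕ → ℂ) (hf : MB f) (t : ℝ) (K0 : ℝ)
    (hK : ‖∑ m ∈ Finset.range (ℓ ^ j), EllTw.ch φ a (p * m) *
      conj (EllTw.ch φ a (p' * m))‖ ≤ K0) :
    ‖mean (ℓ ^ i * ℓ ^ k) (Lm f φ t (ℓ ^ i) a p p')‖ ≤ (K0 + 2) / ℓ := by
  have hℓ0 : (0 : ℝ) < ℓ := by exact_mod_cast hℓ.pos
  have hℓ1 : (1 : ℝ) ≤ ℓ := by exact_mod_cast hℓ.one_lt.le
  have hNZ : NeZero (ℓ ^ j) := ⟨pow_ne_zero _ hℓ.ne_zero⟩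
  have hK0 : 0 ≤ K0 := (norm_nonneg _).trans hK
  obtain ⟨l, hl⟩ : ∃ l, i + k = l + 1 := ⟨i + k - 1, by omega⟩
  obtain ⟨c, hc⟩ : ∃ c, i + k = j + c := ⟨i + k - j, by omega⟩
  have e1 : ℓ ^ i * ℓ ^ k = ℓ * ℓ ^ l := by rw [← pow_add, hl, pow_succ']
  have e2 : ℓ ^ i * ℓ ^ k = ℓ ^ j * ℓ ^ c := by rw [← pow_add, hc, pow_add]
  set Θ : ℕ → ℂ := fun m => EllTw.ch φ a (p * m) * conj (EllTw.ch φ a (p' * m)) with hΘ
  have hz : ((ℓ : ZMod (ℓ ^ j)) ^ j) = 0 := by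
    have := ZMod.natCast_self (ℓ ^ j)
    push_cast at this
    exact this
  have hch : ∀ p m : ℕ, EllTw.ch φ a (p * (m + ℓ ^ j)) = EllTw.ch φ a (p * m) := by
    intro p m
    unfold EllTw.ch
    congr 1
    push_cast
    rw [hz, add_zero]
  have hper : Per (ℓ ^ j) Θ := by
    intro m
    simp only [hΘ]
    rw [hch, hch]
  have hS : ∑ m ∈ range (ℓ ^ i * ℓ ^ k), Θ m =
      ((ℓ ^ c : ℕ) : ℂ) * ∑ m ∈ range (ℓ ^ j), Θ m := by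
    rw [e2, EllTw.MEAN_.sum_range_mul_per hper]
  have hpt : ∀ m : ℕ, ‖Lm f φ t (ℓ ^ i) a p p' m - Θ m‖ ≤
      (if (ℓ : ℤ) ∣ (p : ℤ) * (m : ℤ) + a then (1 : ℝ) else 0) +
      (if (ℓ : ℤ) ∣ (p' : ℤ) * (m : ℤ) + a then (1 : ℝ) else 0) := by
    intro m
    have hΘm : Θ m = φ (((p : ℤ) * (m : ℤ) + a : ℤ) : ZMod (ℓ ^ j)) *
        conj (φ (((p' : ℤ) * (m : ℤ) + a : ℤ) : ZMod (ℓ ^ j))) := by
      simp only [hΘ]
      unfold EllTw.ch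
      push_cast
      rfl
    rw [hΘm]
    unfold Lm
    by_cases h1 : (ℓ : ℤ) ∣ (p : ℤ) * (m : ℤ) + a
    · rw [MEA_.psi_zero hℓ hj φ _ h1, zero_mul, sub_zero, if_pos h1, norm_mul,
        RCLike.norm_conj]
      have h3 := mul_le_one₀ (XZ_.norm_xz (ψ := φ) (t := t) (D := ℓ ^ i) hf
        ((p : ℤ) * (m : ℤ) + a)) (norm_nonneg _)
        (XZ_.norm_xz (ψ := φ) (t := t) (D := ℓ ^ i) hf ((p' : ℤ) * (m : ℤ) + a))
      have h4 : (0 : ℝ) ≤ (if (ℓ : ℤ) ∣ (p' : ℤ) * (m : ℤ) + a then (1 : ℝ) else 0) := by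
        split_ifs <;> norm_num
      linarith
    · by_cases h2 : (ℓ : ℤ) ∣ (p' : ℤ) * (m : ℤ) + a
      · rw [MEA_.psi_zero hℓ hj φ _ h2, map_zero, mul_zero, sub_zero, if_pos h2,
          if_neg h1, norm_mul, RCLike.norm_conj]
        have h3 := mul_le_one₀ (XZ_.norm_xz (ψ := φ) (t := t) (D := ℓ ^ i) hf
          ((p : ℤ) * (m : ℤ) + a)) (norm_nonneg _)
          (XZ_.norm_xz (ψ := φ) (t := t) (D := ℓ ^ i) hf ((p' : ℤ) * (m : ℤ) + a))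
        linarith
      · rw [if_neg h1, if_neg h2, xz_unit hℓ φ hf t h1, xz_unit hℓ φ hf t h2, sub_self,
          norm_zero, add_zero]
  have hfin : ‖∑ m ∈ range (ℓ ^ i * ℓ ^ k), (Lm f φ t (ℓ ^ i) a p p' m - Θ m)‖ ≤
      2 * (ℓ : ℝ) ^ l := by
    refine (norm_sum_le _ _).trans ((Finset.sum_le_sum fun m _ => hpt m).trans ?_)
    rw [Finset.sum_add_distrib, e1]
    have g1 := MEA_.count hℓ p 0 1 l a hp hℓ.not_dvd_one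
    have g2 := MEA_.count hℓ p' 0 1 l a hp' hℓ.not_dvd_one
    simp only [zero_add, one_mul] at g1 g2
    linarith
  rw [Finset.sum_sub_distrib, hS] at hfin
  have hb : ‖((ℓ ^ c : ℕ) : ℂ) * ∑ m ∈ range (ℓ ^ j), Θ m‖ ≤ (ℓ : ℝ) ^ l * K0 := by
    rw [norm_mul, Complex.norm_natCast]
    push_cast
    exact mul_le_mul (pow_le_pow_right₀ hℓ1 (by omega)) hK (norm_nonneg _) (by positivity)
  have htri := norm_sub_norm_le (∑ m ∈ range (ℓ ^ i * ℓ ^ k), Lm f φ t (ℓ ^ i) a p p' m)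
    (((ℓ ^ c : ℕ) : ℂ) * ∑ m ∈ range (ℓ ^ j), Θ m)
  unfold mean
  rw [norm_div, Complex.norm_natCast]
  have e3 : ((ℓ ^ i * ℓ ^ k : ℕ) : ℝ) = ℓ * (ℓ : ℝ) ^ l := by
    rw [e1]
    push_cast
    ring
  rw [e3, div_le_div_iff₀ (by positivity) hℓ0]
  have h6 : ‖∑ m ∈ range (ℓ ^ i * ℓ ^ k), Lm f φ t (ℓ ^ i) a p p' m‖ ≤
      (K0 + 2) * (ℓ : ℝ) ^ l := by linarith
  calc _ ≤ (K0 + 2) * (ℓ : ℝ) ^ l * ℓ := mul_le_mul_of_nonneg_right h6 hℓ0.le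
    _ = _ := by ring

end CA_

theorem prove_CA (h1 : EllTw.T_RAM) : T_CA := by
  intro a p p' ha hp hp' hne
  obtain ⟨K0, hK0⟩ := h1 a p p' ha hp hp' hne
  refine ⟨|K0| + 2, by positivity, ?_⟩
  intro ℓ i j k φ f t hℓ hj hjk hφ hf hlp hlp'
  refine CA_.core hℓ hj hjk hlp hlp' a φ f hf t |K0| ?_
  exact (hK0 (ℓ ^ j) φ (Nat.one_le_iff_ne_zero.2 (pow_ne_zero _ hℓ.ne_zero)) hφ).trans
    (le_abs_self _)

end Pool.Agent.TPY
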