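import Pool.Agent.TPY.Targets

set_option autoImplicit false

/-! TPY-MNN: the mean of the cross product is small for a large conductor. -/

namespace Pool.Agent.TPY

open Finset Filter Pool.Agent.Ell Pool.Agent.TPM Pool.Agent.TPX
open scoped BigOperators ComplexConjugate

namespace MNN_

/-- reduction to a prime of the conductor -/
theorem red (h1 : T_FCN) (h2 : T_RED) (a : ℤ) (p p' : ℕ) (f : ℕ → ℂ) (t : ℝ) (hf : MB f)
    (ℓ : ℕ) (hℓ : ℓ.Prime) (M D : ℕ) (hM : 1 ≤ M) (hD : 1 ≤ D) (Ψ : DirichletCharacter ℂ M)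
    (hd : ℓ ∣ Ψ.conductor) :
    ∃ (i j k D' : ℕ) (φ : DirichletCharacter ℂ (ℓ ^ j)) (g : ℕ → ℂ), D = ℓ ^ i * D' ∧
      1 ≤ j ∧ j ≤ k ∧ ¬ ℓ ^ (j + 1) ∣ Ψ.conductor ∧ φ.IsPrimitive ∧ MB g ∧
      ‖mean (D * M) (Lm f Ψ t D a p p')‖ ≤
        ‖mean (ℓ ^ i * ℓ ^ k) (Lm g φ t (ℓ ^ i) a p p')‖ := by
  obtain ⟨k, M', hM', rfl⟩ := Nat.exists_eq_pow_mul_and_not_dvd (n := M) (by omega) ℓ hℓ.ne_one
  obtain ⟨i, D', hD', rfl⟩ := Nat.exists_eq_pow_mul_and_not_dvd (n := D) (by omega) ℓ hℓ.ne_one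
  have hM0 : 1 ≤ M' := by
    rcases Nat.eq_zero_or_pos M' with h | h
    · subst h
      simp at hM
    · exact h
  have hD0 : 1 ≤ D' := by
    rcases Nat.eq_zero_or_pos D' with h | h
    · subst h
      simp at hD
    · exact h
  obtain ⟨j, φ, Ψ₂, hj1, hjk, hj2, hφ, hval⟩ := h1 ℓ k M' Ψ hℓ hM0 hM' hd
  obtain ⟨hg, hm⟩ := h2 ℓ i j k D' M' φ Ψ₂ Ψ f t a p p' hℓ hj1 hjk hD0 hM0 hD' hM' hf hval
  exact ⟨i, j, k, D', φ, _, rfl, hj1, hjk, hj2, hφ, hg, hm⟩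

/-- a large number with small primes has a large prime power factor -/
theorem big {s z R1 : ℕ} (hs : s ≠ 0) (hR : 1 ≤ R1) (hz : ∀ ℓ : ℕ, ℓ.Prime → ℓ ∣ s → ℓ ≤ z)
    (hb : R1 ^ (z + 1) < s) : ∃ ℓ : ℕ, ℓ.Prime ∧ ℓ ∣ s ∧ R1 < ℓ ^ s.factorization ℓ := by
  by_contra hno
  push Not at hno
  have h1 : s = ∏ ℓ ∈ s.primeFactors, ℓ ^ s.factorization ℓ :=
    (Nat.prod_factorization_pow_eq_self hs).symm
  have h2 : ∏ ℓ ∈ s.primeFactors, ℓ ^ s.factorization ℓ ≤ R1 ^ s.primeFactors.card :=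
    Finset.prod_le_pow_card _ _ _ fun ℓ hℓ =>
      hno ℓ (Nat.prime_of_mem_primeFactors hℓ) (Nat.dvd_of_mem_primeFactors hℓ)
  have h3 : s.primeFactors.card ≤ z + 1 := by
    have : s.primeFactors ⊆ Finset.range (z + 1) := fun ℓ hℓ => by
      have := hz ℓ (Nat.prime_of_mem_primeFactors hℓ) (Nat.dvd_of_mem_primeFactors hℓ)
      rw [Finset.mem_range]
      omega
    simpa using Finset.card_le_card this
  have h4 : R1 ^ s.primeFactors.card ≤ R1 ^ (z + 1) := Nat.pow_le_pow_right hR h3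
  omega

/-- the small part of `DY` -/
theorem small {z V Y M ℓ i D' : ℕ} (hℓ : ℓ.Prime) (hz : ℓ ≤ z)
    (h : DY z V Y M = ℓ ^ i * D') : ℓ ^ (i + 1) ≤ Rep.Q1 z V * (z + 1) := by
  have h1 : ℓ ^ i ∣ Rep.Q1 z V * ∏ q ∈ M.primeFactors.filter (fun q => z < q ∧ q ≤ Y), q := by
    have : ℓ ^ i ∣ DY z V Y M := ⟨D', h⟩
    exact this
  have h2 : Nat.Coprime (ℓ ^ i) (∏ q ∈ M.primeFactors.filter (fun q => z < q ∧ q ≤ Y), q) := by
    refine Nat.Coprime.pow_left _ (Nat.Coprime.prod_right fun q hq => ?_)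
    rw [Finset.mem_filter] at hq
    have hq' := Nat.prime_of_mem_primeFactors hq.1
    rw [Nat.coprime_primes hℓ hq']
    omega
  have h3 : ℓ ^ i ∣ Rep.Q1 z V := h2.dvd_of_dvd_mul_right h1
  have h4 : ℓ ^ i ≤ Rep.Q1 z V := Nat.le_of_dvd (Rep.Q1_pos z V) h3
  rw [pow_succ]
  exact Nat.mul_le_mul h4 (by omega)

end MNN_

open MNN_ in
theorem prove_MNN (h1 : T_FCN) (h2 : T_RED) (h3 : T_CA) (h4 : T_CB) (h5 : T_XZW) : T_MNN := by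
  intro a p p' η ha hp hp' hne hη
  obtain ⟨K1, hK1, H1⟩ := h3 a p p' ha hp hp' hne
  refine ⟨max (⌈K1 / η⌉₊) (max p p'), ?_⟩
  intro z V hz
  have hz1 : ⌈K1 / η⌉₊ ≤ z := (le_max_left _ _).trans hz
  have hz2 : p ≤ z := ((le_max_left _ _).trans (le_max_right _ _)).trans hz
  have hz3 : p' ≤ z := ((le_max_right _ _).trans (le_max_right _ _)).trans hz
  obtain ⟨K2, hK2, H2⟩ := h4 a p p' (Rep.Q1 z V * (z + 1)) ha hp hp' hne
  refine ⟨(⌈K2 / η⌉₊ + 1) ^ (z + 1), ?_⟩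
  intro Y M Ψ f t hM hR hf
  obtain ⟨x1, -, -, -⟩ := h5 z V Y M hM
  have hs0 : Ψ.conductor ≠ 0 := by omega
  by_cases h : ∀ ℓ : ℕ, ℓ.Prime → ℓ ∣ Ψ.conductor → ℓ ≤ z
  · obtain ⟨ℓ, hℓ, hℓs, hbig⟩ := big hs0 (by omega) h hR
    obtain ⟨i, j, k, D', φ, g, hD, hj1, hjk, hj2, hφ, hg, hm⟩ :=
      red h1 h2 a p p' f t hf ℓ hℓ M _ hM x1 Ψ hℓs
    have hi := small hℓ (h ℓ hℓ hℓs) hD
    refine hm.trans ((H2 ℓ i j k φ g t hℓ hj1 hjk hφ hg hi).trans ?_)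
    have hv : Ψ.conductor.factorization ℓ ≤ j := by
      by_contra hcon
      exact hj2 ((pow_dvd_pow ℓ (by omega)).trans (Nat.ordProj_dvd Ψ.conductor ℓ))
    have hj3 : ⌈K2 / η⌉₊ + 1 ≤ ℓ ^ j :=
      hbig.le.trans (Nat.pow_le_pow_right hℓ.pos hv)
    have h6 : K2 / η ≤ (ℓ : ℝ) ^ j := by
      refine (Nat.le_ceil _).trans ?_
      have : ⌈K2 / η⌉₊ ≤ ℓ ^ j := by omega
      exact_mod_cast this
    have hℓ0 : (0 : ℝ) < (ℓ : ℝ) ^ j := by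
      have : (0 : ℝ) < ℓ := by exact_mod_cast hℓ.pos
      positivity
    rw [div_le_iff₀ hη] at h6
    rw [div_le_iff₀ hℓ0]
    linarith
  · push Not at h
    obtain ⟨ℓ, hℓ, hℓr, hℓz⟩ := h
    have hnp : ¬ ℓ ∣ p := fun h => by
      have := Nat.le_of_dvd hp.pos h
      omega
    have hnp' : ¬ ℓ ∣ p' := fun h => by
      have := Nat.le_of_dvd hp'.pos h
      omega
    obtain ⟨i, j, k, D', φ, g, hD, hj1, hjk, hj2, hφ, hg, hm⟩ :=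
      red h1 h2 a p p' f t hf ℓ hℓ M _ hM x1 Ψ hℓr
    refine hm.trans ((H1 ℓ i j k φ g t hℓ hj1 hjk hφ hg hnp hnp').trans ?_)
    have h3 : K1 / η ≤ ℓ := (Nat.le_ceil _).trans (by exact_mod_cast (by omega : ⌈K1 / η⌉₊ ≤ ℓ))
    have hℓ0 : (0 : ℝ) < ℓ := by exact_mod_cast hℓ.pos
    rw [div_le_iff₀ hη] at h3
    rw [div_le_iff₀ hℓ0]
    linarith

end Pool.Agent.TPY
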