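import Pool.Agent.TPY.Targets
import Pool.Agent.TPM.MEA

set_option autoImplicit false

/-! TPY-RED: reduction of the mean of the cross product to the prime `ℓ`. -/

namespace Pool.Agent.TPY

open Finset Filter Pool.Agent.Ell Pool.Agent.TPM Pool.Agent.TPX
open scoped BigOperators ComplexConjugate

namespace RED_

/-- the twisted function is multiplicative and bounded -/
lemma mb_twist {M' : ℕ} (Ψ₂ : DirichletCharacter ℂ M') {f : ℕ → ℂ} (hf : MB f) :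
    MB (fun n => f n * conj (Ψ₂ (n : ZMod M'))) := by
  refine ⟨?_, ?_, ?_⟩
  · simp [hf.one]
  · intro m n hmn
    rw [hf.mul m n hmn]
    push_cast
    rw [map_mul, map_mul]
    ring
  · intro n
    rw [norm_mul, RCLike.norm_conj]
    exact mul_le_one₀ (hf.bd n) (norm_nonneg _) (DirichletCharacter.norm_le_one _ _)

/-- `n ^ {i t}` is multiplicative -/
lemma nit_mul (t : ℝ) (m n : ℕ) : nit t (m * n) = nit t m * nit t n := by
  unfold nit
  push_cast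
  rw [Complex.natCast_mul_natCast_cpow]

/-- the value of a character at a number prime to the modulus has norm one -/
lemma norm_char {N e : ℕ} (hN : N ≠ 0) (ψ : DirichletCharacter ℂ N) (he : e.Coprime N) :
    ψ (e : ZMod N) * conj (ψ (e : ZMod N)) = 1 := by
  have : NeZero N := ⟨hN⟩
  have h1 : IsUnit ((e : ℕ) : ZMod N) := (ZMod.isUnit_iff_coprime e N).2 he
  have h2 := ψ.unit_norm_eq_one h1.unit
  have hu : ‖ψ (e : ZMod N)‖ = 1 := by simpa using h2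
  rw [Complex.mul_conj, Complex.normSq_eq_norm_sq, hu]
  norm_num

/-- the structured factor along a progression -/
lemma xz_prog {ℓ i j k D' M' : ℕ} (hℓ : ℓ.Prime) (hD1 : 1 ≤ D') (hM1 : 1 ≤ M')
    (hD' : ¬ ℓ ∣ D') (hM' : ¬ ℓ ∣ M')
    (φ : DirichletCharacter ℂ (ℓ ^ j)) (Ψ₂ : DirichletCharacter ℂ M')
    (Ψ : DirichletCharacter ℂ (ℓ ^ k * M'))
    (hψ : ∀ n : ℤ, Ψ (n : ZMod (ℓ ^ k * M')) = φ (n : ZMod (ℓ ^ j)) * Ψ₂ (n : ZMod M'))
    (f : ℕ → ℂ) (hf : MB f) (t : ℝ) (n0 c : ℤ) :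
    ∃ κ : ℂ, ‖κ‖ ≤ 1 ∧ ∀ s : ℤ,
      xz f Ψ t (ℓ ^ i * D') (n0 + (D' * M' : ℕ) * (c * s)) =
        κ * xz (fun n => f n * conj (Ψ₂ (n : ZMod M'))) φ t (ℓ ^ i)
          (n0 + (D' * M' : ℕ) * (c * s)) := by
  set e' := Int.gcd n0 D' with he'
  have heD : e' ∣ D' := by
    have := Int.gcd_dvd_right n0 (D' : ℤ)
    rw [← he'] at this
    exact_mod_cast this
  have he0 : 0 < e' := Int.gcd_pos_of_ne_zero_right _ (by exact_mod_cast (by omega : D' ≠ 0))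
  have hen : (e' : ℤ) ∣ n0 := Int.gcd_dvd_left _ _
  have heℓ : ¬ ℓ ∣ e' := fun h => hD' (h.trans heD)
  have hce : e'.Coprime ℓ := ((Nat.Prime.coprime_iff_not_dvd hℓ).2 heℓ).symm
  have hcD : (ℓ ^ i).Coprime D' := Nat.Coprime.pow_left _ ((Nat.Prime.coprime_iff_not_dvd hℓ).2 hD')
  have hcM : (ℓ ^ i).Coprime M' := Nat.Coprime.pow_left _ ((Nat.Prime.coprime_iff_not_dvd hℓ).2 hM')
  refine ⟨f e' * conj (nit t e') * conj (φ (e' : ZMod (ℓ ^ j))) *
    Ψ₂ ((n0 / (e' : ℤ) : ℤ) : ZMod M'), ?_, ?_⟩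
  · rw [norm_mul, norm_mul, norm_mul, RCLike.norm_conj, RCLike.norm_conj]
    exact mul_le_one₀ (mul_le_one₀ (mul_le_one₀ (hf.bd _) (norm_nonneg _) (KeyA.norm_nit _ _))
      (norm_nonneg _) (DirichletCharacter.norm_le_one _ _)) (norm_nonneg _)
      (DirichletCharacter.norm_le_one _ _)
  · intro s
    set n := n0 + (D' * M' : ℕ) * (c * s) with hn
    have hn' : n = n0 + (D' : ℤ) * (M' * (c * s)) := by
      rw [hn]
      push_cast
      ring
    have hg1 : Int.gcd n D' = e' := by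
      rw [hn', Int.gcd_add_mul_left_left]
    set e := Int.gcd n ((ℓ ^ i : ℕ) : ℤ) with he
    have hg : Int.gcd n ((ℓ ^ i * D' : ℕ) : ℤ) = e * e' := by
      rw [← hg1, he]
      unfold Int.gcd
      rw [Int.natAbs_natCast, Int.natAbs_natCast, Int.natAbs_natCast]
      exact Nat.Coprime.gcd_mul _ hcD
    have heℓi : e ∣ ℓ ^ i := by
      have := Int.gcd_dvd_right n ((ℓ ^ i : ℕ) : ℤ)
      rw [← he] at this
      exact_mod_cast this
    have hee : e.Coprime e' :=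
      Nat.Coprime.coprime_dvd_left heℓi (Nat.Coprime.pow_left _ hce.symm)
    have hu1 := norm_char (pow_ne_zero j hℓ.ne_zero) φ (Nat.Coprime.pow_right j hce)
    have hu2 := norm_char (by omega : M' ≠ 0) Ψ₂ (Nat.Coprime.coprime_dvd_left heℓi hcM)
    have hdvd : ((e * e' : ℕ) : ℤ) ∣ n := by
      rw [← hg]
      exact Int.gcd_dvd_left _ _
    have hd1 : (e : ℤ) ∣ n := Int.gcd_dvd_left _ _
    have hd2 : (e' : ℤ) ∣ n := by
      rw [← hg1]
      exact Int.gcd_dvd_left _ _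
    have hepos : 0 < e := Nat.pos_of_dvd_of_pos heℓi (pow_pos hℓ.pos _)
    obtain ⟨w, hw⟩ := hdvd
    have q0 : n / ((e * e' : ℕ) : ℤ) = w := by
      rw [hw]
      exact Int.mul_ediv_cancel_left _ (by exact_mod_cast (Nat.mul_pos hepos he0).ne')
    have q1 : n / (e : ℤ) = e' * w := by
      rw [hw]
      push_cast
      rw [mul_assoc]
      exact Int.mul_ediv_cancel_left _ (by exact_mod_cast hepos.ne')
    have q2 : n / (e' : ℤ) = e * w := by
      rw [hw]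
      push_cast
      rw [mul_comm (e : ℤ) e', mul_assoc]
      exact Int.mul_ediv_cancel_left _ (by exact_mod_cast he0.ne')
    have hdiv : n / (e' : ℤ) = n0 / (e' : ℤ) + (D' : ℤ) / (e' : ℤ) * (M' * (c * s)) := by
      have heD' : (e' : ℤ) ∣ (D' : ℤ) := by exact_mod_cast heD
      rw [hn', Int.add_ediv_of_dvd_left hen, mul_comm (D' : ℤ) _, Int.mul_ediv_assoc _ heD',
        mul_comm (M' * (c * s) : ℤ)]
    have h2 : Ψ₂ ((n0 / (e' : ℤ) : ℤ) : ZMod M') = Ψ₂ (e : ZMod M') * Ψ₂ (w : ZMod M') := by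
      rw [← map_mul]
      have h3 : (((n / (e' : ℤ)) : ℤ) : ZMod M') = ((n0 / (e' : ℤ) : ℤ) : ZMod M') := by
        rw [hdiv]
        push_cast
        simp
      rw [← h3, q2]
      push_cast
      rfl
    unfold xz
    rw [hg, hψ, q0, ← he, q1, h2, hf.mul _ _ hee, nit_mul]
    have h5 : φ (((e' : ℤ) * w : ℤ) : ZMod (ℓ ^ j)) = φ (e' : ZMod (ℓ ^ j)) *
        φ (w : ZMod (ℓ ^ j)) := by
      rw [← map_mul]
      push_cast
      rfl
    rw [h5, map_mul]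
    calc f e * f e' * (conj (nit t e) * conj (nit t e')) *
          (φ (w : ZMod (ℓ ^ j)) * Ψ₂ (w : ZMod M'))
        = f e * f e' * (conj (nit t e) * conj (nit t e')) *
          (φ (w : ZMod (ℓ ^ j)) * Ψ₂ (w : ZMod M')) *
          (φ (e' : ZMod (ℓ ^ j)) * conj (φ (e' : ZMod (ℓ ^ j)))) *
          (Ψ₂ (e : ZMod M') * conj (Ψ₂ (e : ZMod M'))) := by
          rw [hu1, hu2, mul_one, mul_one]
      _ = _ := by ring

/-- a complete sum of a periodic function along a progression -/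
lemma sum_prog {q T : ℕ} (hq : 1 ≤ q) (hT : T.Coprime q) {Θ : ℕ → ℂ} (hΘ : Per q Θ) (m0 : ℕ) :
    ∑ s ∈ range q, Θ (m0 + T * s) = ∑ s ∈ range q, Θ s := by
  have : NeZero q := ⟨by omega⟩
  have hmod : ∀ m : ℕ, Θ m = (fun x : ZMod q => Θ x.val) ((m : ℕ) : ZMod q) := by
    intro m
    simp only
    rw [ZMod.val_natCast]
    exact (Function.Periodic.map_mod_nat hΘ m).symm
  have h1 := MEA_.sum_aff (fun x : ZMod q => Θ x.val) m0 T hT
  have h2 := EllTw.RAM_.sum_range_zmod (fun x : ZMod q => Θ x.val)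
  calc ∑ s ∈ range q, Θ (m0 + T * s)
      = ∑ s ∈ range q, (fun x : ZMod q => Θ x.val) ((m0 : ZMod q) + (T : ZMod q) *
          (s : ZMod q)) := by
        refine Finset.sum_congr rfl fun s _ => ?_
        rw [hmod (m0 + T * s)]
        push_cast
        rfl
    _ = ∑ x : ZMod q, (fun x : ZMod q => Θ x.val) x := h1
    _ = ∑ s ∈ range q, (fun x : ZMod q => Θ x.val) (s : ZMod q) := h2.symm
    _ = _ := Finset.sum_congr rfl fun s _ => (hmod s).symm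

end RED_

theorem prove_RED : T_RED := by
  intro ℓ i j k D' M' φ Ψ₂ Ψ f t a p p' hℓ hj hjk hD1 hM1 hD' hM' hf hψ
  have hf' := RED_.mb_twist Ψ₂ hf
  refine ⟨hf', ?_⟩
  set f' : ℕ → ℂ := fun n => f n * conj (Ψ₂ (n : ZMod M')) with hf'def
  set q := ℓ ^ i * ℓ ^ k with hqdef
  set T := D' * M' with hTdef
  have e1 : (ℓ ^ i * D') * (ℓ ^ k * M') = T * q := by
    rw [hqdef, hTdef]
    ring
  rw [e1]
  have hq : 1 ≤ q := Nat.mul_pos (pow_pos hℓ.pos _) (pow_pos hℓ.pos _)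
  have hT1 : 1 ≤ T := Nat.mul_pos hD1 hM1
  have hTℓ : ¬ ℓ ∣ T := by
    intro h
    rcases (Nat.Prime.dvd_mul hℓ).1 h with h1 | h1
    · exact hD' h1
    · exact hM' h1
  have hTq : T.Coprime q := by
    have h1 : T.Coprime ℓ := ((Nat.Prime.coprime_iff_not_dvd hℓ).2 hTℓ).symm
    exact Nat.Coprime.mul_right (Nat.Coprime.pow_right _ h1) (Nat.Coprime.pow_right _ h1)
  set Θ : ℕ → ℂ := Lm f' φ t (ℓ ^ i) a p p' with hΘ
  have hper : Per q Θ := by
    have h1 : Per (ℓ ^ i * ℓ ^ j) Θ :=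
      ((prove_XZ.2 (ℓ ^ j) φ f' t (ℓ ^ i) hf' (pow_pos hℓ.pos _)).2.2.2.1 a p p')
    have h2 : Function.Periodic Θ (ℓ ^ i * ℓ ^ j) := h1
    have h3 := h2.nat_mul (ℓ ^ (k - j))
    have h4 : ((ℓ ^ (k - j) : ℕ) : ℕ) * (ℓ ^ i * ℓ ^ j) = q := by
      rw [hqdef]
      have : ℓ ^ k = ℓ ^ (k - j) * ℓ ^ j := by
        rw [← pow_add, Nat.sub_add_cancel hjk]
      rw [this]
      ring
    intro m
    have h5 := h3 m
    rw [← h4]
    exact h5
  have hmean : ‖mean q Θ‖ = ‖∑ s ∈ range q, Θ s‖ / (q : ℝ) := by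
    unfold mean
    rw [norm_div, Complex.norm_natCast]
  rw [hmean]
  refine prove_AVG q T _ _ hq hT1 ?_
  intro m0 _
  obtain ⟨κ, hκ, Hκ⟩ := RED_.xz_prog (i := i) hℓ hD1 hM1 hD' hM' φ Ψ₂ Ψ hψ f hf t
    ((p : ℤ) * m0 + a) p
  obtain ⟨κ', hκ', Hκ'⟩ := RED_.xz_prog (i := i) hℓ hD1 hM1 hD' hM' φ Ψ₂ Ψ hψ f hf t
    ((p' : ℤ) * m0 + a) p'
  have en : ∀ (p s : ℕ), (p : ℤ) * ((m0 + T * s : ℕ) : ℤ) + a =
      ((p : ℤ) * m0 + a) + (D' * M' : ℕ) * ((p : ℤ) * (s : ℤ)) := by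
    intro p s
    rw [hTdef]
    push_cast
    ring
  have hpt : ∀ s : ℕ, Lm f Ψ t (ℓ ^ i * D') a p p' (m0 + T * s) =
      κ * conj κ' * Θ (m0 + T * s) := by
    intro s
    rw [hΘ]
    unfold Lm
    have g1 := Hκ s
    have g2 := Hκ' s
    rw [← en] at g1 g2
    rw [g1, g2, map_mul]
    ring
  have e2 : ∑ s ∈ range q, Lm f Ψ t (ℓ ^ i * D') a p p' (m0 + T * s) =
      κ * conj κ' * ∑ s ∈ range q, Θ s := by
    rw [← RED_.sum_prog hq hTq hper m0, Finset.mul_sum]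
    exact Finset.sum_congr rfl fun s _ => hpt s
  rw [e2, norm_mul, norm_mul, RCLike.norm_conj]
  have h1 : ‖κ‖ * ‖κ'‖ ≤ 1 := mul_le_one₀ hκ (norm_nonneg _) hκ'
  calc _ ≤ 1 * ‖∑ s ∈ range q, Θ s‖ :=
        mul_le_mul_of_nonneg_right h1 (norm_nonneg _)
    _ = _ := one_mul _

end Pool.Agent.TPY
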