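import Pool.Agent.TPY.Targets
import Pool.Agent.EllTw.BLK

set_option autoImplicit false

/-! The count of the separated twists which correlate with a fixed function on one block, one
function structured on the large primes. -/

namespace Pool.Agent.TPY.YBL_

open Finset Filter Pool.Agent.Ell Pool.Agent.Ell.KeyA Pool.Agent.EllTw Pool.Agent.EllTw.BLK_
open scoped BigOperators ComplexConjugate

/-- the cross term -/
noncomputable def wg {k : ℕ} (a : Fin k → ℤ) (b : Fin k) (p p' : ℕ) (g : ℕ → ℂ)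
    (t : Fin k → ℝ) (m : ℕ) : ℂ :=
  Wg a b g t (p * m) * conj (Wg a b g t (p' * m))

theorem norm_wg {k : ℕ} (a : Fin k → ℤ) (b : Fin k) (p p' : ℕ) (g : ℕ → ℂ)
    (t : Fin k → ℝ) (hg : ∀ n, ‖g n‖ ≤ 1) (m : ℕ) : ‖wg a b p p' g t m‖ ≤ 1 := by
  have hW : ∀ n, ‖Wg a b g t n‖ ≤ 1 := by
    intro n
    unfold Wg
    rw [norm_mul]
    exact mul_le_one₀ (hg _) (norm_nonneg _) (norm_ph _ _ _)
  unfold wg
  rw [norm_mul, RCLike.norm_conj]
  exact mul_le_one₀ (hW _) (norm_nonneg _) (hW _)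

theorem nit_sub (t t' : ℝ) (n : ℕ) (hn : 1 ≤ n) :
    nit (t - t') n = nit t n * conj (nit t' n) := by
  rw [nit_eq _ n hn, nit_eq _ n hn, nit_eq _ n hn, conj_ei, ← ei_add]
  congr 1
  ring

theorem ph_sub {k : ℕ} (a : Fin k → ℤ) (t t' : Fin k → ℝ) (n : ℕ)
    (hn : ∀ j, 1 ≤ sh (a j) n) :
    ph a (fun j => t j - t' j) n = ph a t n * conj (ph a t' n) := by
  unfold ph
  rw [map_prod, ← Finset.prod_mul_distrib]
  exact Finset.prod_congr rfl (fun j _ => nit_sub _ _ _ (hn j))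

theorem sh_pos {k : ℕ} (a : Fin k → ℤ) (p m : ℕ) (hm : 1 ≤ m) (hp : ∀ j, |a j| < (p : ℤ))
    (j : Fin k) : 1 ≤ sh (a j) (p * m) := by
  have h1 := hp j
  have h2 : -(p : ℤ) < a j := (abs_lt.1 h1).1
  have h3 : (p : ℤ) ≤ ((p * m : ℕ) : ℤ) := by
    exact_mod_cast Nat.le_mul_of_pos_right p (by omega)
  have h4 : 1 ≤ ((p * m : ℕ) : ℤ) + a j := by omega
  unfold sh
  omega

theorem cross {k : ℕ} (a : Fin k → ℤ) (b : Fin k) (p p' : ℕ) (g g' : ℕ → ℂ)
    (t t' : Fin k → ℝ) (m : ℕ) (hm : 1 ≤ m) (hp : ∀ j, |a j| < (p : ℤ))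
    (hp' : ∀ j, |a j| < (p' : ℤ)) :
    wg a b p p' g t m * conj (wg a b p p' g' t' m) =
      (ph a (fun j => t j - t' j) (p * m) *
        (fun n => g n * conj (g' n)) (sh (a b) (p * m))) *
      conj (ph a (fun j => t j - t' j) (p' * m) *
        (fun n => g n * conj (g' n)) (sh (a b) (p' * m))) := by
  rw [ph_sub a t t' _ (sh_pos a p m hm hp), ph_sub a t t' _ (sh_pos a p' m hm hp')]
  unfold wg Wg
  simp only [map_mul, Complex.conj_conj]
  ring

theorem char_eq {M q q' : ℕ} (Ψ : DirichletCharacter ℂ M) (hM : M ∣ q * q') (n : ℕ)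
    (hn : n.Coprime (q * q')) : Ψ.primitiveCharacter n = Ψ n := by
  have h1 : n.Coprime M := Nat.Coprime.coprime_dvd_right hM hn
  have h2 : IsCoprime (n : ℤ) (M : ℤ) := Nat.isCoprime_iff_coprime.2 h1
  have h3 := DirichletCharacter.primitiveCharacter_apply_of_isCoprime Ψ h2
  simpa using h3

theorem main (h2 : EllTw.T_INJ) (h3 : EllTw.T_DUAL) (hE : T_EXN) (hD : T_DCL) : T_YBL := by
  classical
  intro k a b p p' C δ κ0 θ ha ha0 hp hp' hpp hpa hpa' hC hδ hκ hθ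
  set v : ℝ := min θ (1 / 2) with hv
  have hv0 : 0 < v := lt_min hθ (by norm_num)
  have hv1 : v ≤ 1 / 2 := min_le_right _ _
  have hvθ : v ≤ θ := min_le_left _ _
  set d : ℝ := δ ^ 2 / 2 with hd
  have hd0 : 0 < d := by positivity
  obtain ⟨B0, A1, R, X1, hB0, hA1, HE⟩ := hE k a b p p' (C + 1) (d / 2) κ0 v ha ha0 hp hp' hpp
    hpa hpa' (by positivity) (by positivity) hκ hv0 (by linarith)
  obtain ⟨A, X2, hA, HD⟩ := hD A1 hA1
  haveI := fin_Cs R
  haveI : Fintype (Cs R) := Fintype.ofFinite _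
  set K1 : ℕ := Fintype.card (Cs R) with hK1
  refine ⟨⌊2 * (K1 : ℝ) / δ ^ 2⌋₊, max X1 (max X2 2), 2 * B0, A, by positivity,
    hA1.trans hA, ?_⟩
  intro x N hx hκN hNx y1 y2 hy1 hy12 hy2 hpy hpy' β S g hβ hS hlcm hsep
  have m1 : X1 ≤ x := le_trans (le_max_left _ _) hx
  have m2 : X2 ≤ x := le_trans (le_trans (le_max_left _ _) (le_max_right _ _)) hx
  have m0 : 2 ≤ x := le_trans (le_trans (le_max_right _ _) (le_max_right _ _)) hx
  have hxr : (2 : ℝ) ≤ x := by exact_mod_cast m0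
  have hx0 : (0 : ℝ) < x := by linarith
  have hN0 : (0 : ℝ) < N := lt_of_lt_of_le (by positivity) hκN
  have hN1 : 1 ≤ N := by exact_mod_cast hN0
  have hNxr : (N : ℝ) ≤ x := by exact_mod_cast hNx
  have htd : ∀ e ∈ S, ∀ e' ∈ S, ∀ j, |e.t j - e'.t j| ≤ (x : ℝ) ^ (C + 1) := by
    intro e he e' he' j
    have g1 := (hS e he).2.1 j
    have g2 := (hS e' he').2.1 j
    have g3 : |e.t j - e'.t j| ≤ |e.t j| + |e'.t j| := abs_sub _ _
    rw [Real.rpow_add hx0, Real.rpow_one]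
    have g4 : (0 : ℝ) < (x : ℝ) ^ C := by positivity
    nlinarith
  have hqq : ∀ e ∈ S, ∀ e' ∈ S, ((Nat.lcm e.q e'.q : ℕ) : ℝ) ≤ (x : ℝ) ^ (1 - v) := by
    intro e he e' he'
    exact (hlcm e he e' he').trans
      (Real.rpow_le_rpow_of_exponent_le (by linarith) (by linarith))
  have hqx : ∀ e ∈ S, ∀ e' ∈ S, Nat.lcm e.q e'.q ≤ x := by
    intro e he e' he'
    have h4 : ((Nat.lcm e.q e'.q : ℕ) : ℝ) ≤ (x : ℝ) ^ (1 : ℝ) :=
      (hqq e he e' he').trans (Real.rpow_le_rpow_of_exponent_le (by linarith) (by linarith))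
    rw [Real.rpow_one] at h4
    exact_mod_cast h4
  -- the vectors
  set w : Pt k → ℕ → ℂ := fun e m => if e ∈ S then wg a b p p' (g e) e.t m else 0 with hw
  have hwS : ∀ e ∈ S, ∀ m, w e m = wg a b p p' (g e) e.t m := by
    intro e he m
    simp only [hw, if_pos he]
  have hw1 : ∀ e m, ‖w e m‖ ≤ 1 := by
    intro e m
    by_cases he : e ∈ S
    · rw [hwS e he]
      exact norm_wg _ _ _ _ _ _ ((hS e he).2.2.1.bd) m
    · simp only [hw, if_neg he, norm_zero]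
      exact zero_le_one
  -- the pairs with a large cross sum
  have hpair : ∀ e ∈ S, ∀ e' ∈ S,
      d * N < ‖∑ m ∈ Finset.Ioc y1 y2, w e m * conj (w e' m)‖ →
      Lam a (fun j => e.t j - e'.t j) N < B0 ∧
      ∃ (r : ℕ) (θ : DirichletCharacter ℂ r), 1 ≤ r ∧ r ≤ R ∧
        ∀ n : ℕ, n.Coprime (e.q * e'.q) → e.χ n * conj (e'.χ n) = θ n := by
    intro e he e' he' hbig
    have q1 := (hS e he).1
    have q2 := (hS e' he').1
    have hl1 : 1 ≤ Nat.lcm e.q e'.q := Nat.lcm_pos q1 q2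
    obtain ⟨hMB, Ψ, hΨ, hdist⟩ := HD x e.q e'.q e.χ e'.χ (g e) (g e') m2 (hS e he).2.2.1
      (hS e' he').2.2.1 q1 q2 (hqx e he e' he') (hS e he).2.2.2.1 (hS e' he').2.2.2.1
    have hsum : ∑ m ∈ Finset.Ioc y1 y2, w e m * conj (w e' m) =
        ∑ m ∈ Finset.Ioc y1 y2, (ph a (fun j => e.t j - e'.t j) (p * m) *
          (fun n => g e n * conj (g e' n)) (sh (a b) (p * m))) *
        conj (ph a (fun j => e.t j - e'.t j) (p' * m) *
          (fun n => g e n * conj (g e' n)) (sh (a b) (p' * m))) := by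
      refine Finset.sum_congr rfl (fun m hm => ?_)
      rw [Finset.mem_Ioc] at hm
      rw [hwS e he, hwS e' he']
      exact cross a b p p' (g e) (g e') e.t e'.t m (by omega) hpa hpa'
    have hcon : ¬ (R < Ψ.conductor ∨ B0 ≤ Lam a (fun j => e.t j - e'.t j) N) := by
      intro hor
      have h5 := HE x N (Nat.lcm e.q e'.q) Ψ (fun n => g e n * conj (g e' n))
        (fun j => e.t j - e'.t j) m1 hκN hNx hl1 (hqq e he e' he') hMB (htd e he e' he') hdist
        hor y1 y2 hy1 hy12 hy2 hpy hpy'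
      rw [hsum] at hbig
      have h6 := lt_of_lt_of_le hbig h5
      have : 0 < d * N := by positivity
      linarith
    push Not at hcon
    haveI : NeZero (Nat.lcm e.q e'.q) := ⟨by omega⟩
    refine ⟨hcon.2, Ψ.conductor, Ψ.primitiveCharacter, ?_, hcon.1, ?_⟩
    · exact Nat.one_le_iff_ne_zero.2 (DirichletCharacter.conductor_ne_zero Ψ)
    · intro n hn
      rw [char_eq Ψ (Nat.lcm_dvd_mul _ _) n hn, hΨ n hn]
  have hcard : ((Finset.Ioc y1 y2).card : ℝ) ≤ N := card_le N y1 y2 hy1 hy12 hy2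
  have key := count S w β (Finset.Ioc y1 y2) δ N K1 h3 hδ hN0 hcard hβ hw1 ?_ ?_
  · exact Nat.le_floor key
  · intro e he
    have h5 := (hS e he).2.2.2.2
    have h6 : δ * (N : ℝ) ≤ δ * x := mul_le_mul_of_nonneg_left hNxr hδ.le
    refine lt_of_le_of_lt h6 ?_
    have h7 : ∑ m ∈ Finset.Ioc y1 y2, β m * w e m = ∑ m ∈ Finset.Ioc y1 y2,
        β m * (Wg a b (g e) e.t (p * m) * conj (Wg a b (g e) e.t (p' * m))) := by
      refine Finset.sum_congr rfl (fun m _ => ?_)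
      rw [hwS e he]
      rfl
    rw [h7]
    exact h5
  -- for fixed `e`
  intro e he T hTS hT
  have hch : ∀ e' ∈ T, ∃ z : Cs R, ∀ n : ℕ, n.Coprime (e.q * e'.q) →
      e.χ n * conj (e'.χ n) = z.2 n := by
    intro e' he'
    obtain ⟨_, r, θ, r1, r2, hθ⟩ := hpair e he e' (hTS he') (hT e' he')
    obtain ⟨s, rfl⟩ : ∃ s, r = s + 1 := ⟨r - 1, by omega⟩
    exact ⟨⟨⟨s, by omega⟩, θ⟩, hθ⟩
  rcases T.eq_empty_or_nonempty with rfl | ⟨e0, he0⟩
  · simp
  haveI : Nonempty (Cs R) := (hch e0 he0).nonempty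
  choose! G hG using hch
  have hinj : Set.InjOn G T := by
    intro e1 he1 e2 he2 h12
    by_contra hne
    have hs : Same e1.χ e2.χ := by
      refine h2 e.q e1.q e2.q _ e.χ e1.χ e2.χ (G e1).2 (hS e he).1 (hS e1 (hTS he1)).1
        (hS e2 (hTS he2)).1 (hG e1 he1) ?_
      rw [h12]
      exact hG e2 he2
    obtain ⟨l, hl, hlt⟩ := hsep e1 (hTS he1) e2 (hTS he2) hne hs
    have hL : ∀ e' ∈ T, |tau a (fun j => e.t j - e'.t j) l| < B0 * (N : ℝ) ^ l := by
      intro e' he'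
      have hLam := (hpair e he e' (hTS he') (hT e' he')).1
      have hNl : (0 : ℝ) < (N : ℝ) ^ l := by positivity
      rw [← div_lt_iff₀ hNl]
      refine lt_of_le_of_lt ?_ hLam
      unfold Lam
      exact Finset.single_le_sum (f := fun l => |tau a (fun j => e.t j - e'.t j) l| / (N : ℝ) ^ l)
        (fun l _ => by positivity) hl
    have g1 := hL e1 he1
    have g2 := hL e2 he2
    rw [tau_sub a e.t e1.t e2.t l] at hlt
    have g3 : |tau a (fun j => e.t j - e2.t j) l - tau a (fun j => e.t j - e1.t j) l| ≤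
        |tau a (fun j => e.t j - e2.t j) l| + |tau a (fun j => e.t j - e1.t j) l| := abs_sub _ _
    have g4 : (N : ℝ) ^ l ≤ (x : ℝ) ^ l := pow_le_pow_left₀ hN0.le hNxr l
    have g5 : B0 * (N : ℝ) ^ l ≤ B0 * (x : ℝ) ^ l := mul_le_mul_of_nonneg_left g4 hB0.le
    linarith
  have := Finset.card_le_card_of_injOn G (t := Finset.univ) (fun _ _ => Finset.mem_univ _) hinj
  rwa [Finset.card_univ] at this

end Pool.Agent.TPY.YBL_

namespace Pool.Agent.TPY

open Pool.Agent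

theorem prove_YBL (h1 : EllTw.T_INJ) (h2 : EllTw.T_DUAL) (h3 : T_EXN) (h4 : T_DCL) : T_YBL :=
  YBL_.main h1 h2 h3 h4

end Pool.Agent.TPY
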