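import Pool.Agent.TPY.Targets

/-!
TPY, block DCL: the distance of a product of two structured functions.
-/

set_option autoImplicit false

namespace Pool.Agent.TPY

open Finset Filter Pool.Agent.Ell Pool.Agent.TPM Pool.Agent.TPX
open scoped BigOperators ComplexConjugate

namespace DCL_

lemma two_disc (u v : ℂ) (hu : ‖u‖ ≤ 1) (hv : ‖v‖ ≤ 1) :
    1 - (u * v).re ≤ 2 * (1 - u.re) + 2 * (1 - v.re) := by
  have h1 : u.re ^ 2 + u.im ^ 2 ≤ 1 := by
    have h := Complex.sq_norm u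
    rw [Complex.normSq_apply] at h
    nlinarith [norm_nonneg u]
  have h2 : v.re ^ 2 + v.im ^ 2 ≤ 1 := by
    have h := Complex.sq_norm v
    rw [Complex.normSq_apply] at h
    nlinarith [norm_nonneg v]
  rw [Complex.mul_re]
  nlinarith [sq_nonneg (u.re + v.re - 2), sq_nonneg (u.im - v.im)]

lemma re_le (u : ℂ) (hu : ‖u‖ ≤ 1) : 0 ≤ 1 - u.re ∧ 1 - u.re ≤ 2 := by
  have := Complex.abs_re_le_norm u
  rw [abs_le] at this
  constructor <;> linarith [this.1, this.2]

lemma nit_zero (n : ℕ) : nit 0 n = 1 := by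
  simp [nit]

lemma term_nonneg {r : ℕ} (f : ℕ → ℂ) (hf : ∀ n, ‖f n‖ ≤ 1) (χ : DirichletCharacter ℂ r) (p : ℕ) :
    0 ≤ (1 - (f p * conj (χ (p : ZMod r) * nit 0 p)).re) / (p : ℝ) ∧
    (1 - (f p * conj (χ (p : ZMod r) * nit 0 p)).re) / (p : ℝ) ≤ 2 / p := by
  have h : ‖f p * conj (χ (p : ZMod r) * nit 0 p)‖ ≤ 1 := by
    rw [nit_zero, mul_one, norm_mul, RCLike.norm_conj]
    exact mul_le_one₀ (hf p) (norm_nonneg _) (χ.norm_le_one _)
  obtain ⟨h1, h2⟩ := re_le _ h
  exact ⟨div_nonneg h1 (Nat.cast_nonneg p), div_le_div_of_nonneg_right h2 (Nat.cast_nonneg p)⟩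

lemma MB_prod {g g' : ℕ → ℂ} (hg : MB g) (hg' : MB g') : MB (fun n => g n * conj (g' n)) := by
  refine ⟨by simp [hg.one, hg'.one], ?_, ?_⟩
  · intro m n h
    simp only [hg.mul m n h, hg'.mul m n h, map_mul]
    ring
  · intro n
    rw [norm_mul, RCLike.norm_conj]
    exact mul_le_one₀ (hg.bd n) (norm_nonneg _) (hg'.bd n)

/-- the product character -/
noncomputable def Psi {q q' : ℕ} (χ : DirichletCharacter ℂ q) (χ' : DirichletCharacter ℂ q') :
    DirichletCharacter ℂ (Nat.lcm q q') :=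
  DirichletCharacter.changeLevel (Nat.dvd_lcm_left q q') χ *
    (DirichletCharacter.changeLevel (Nat.dvd_lcm_right q q') χ')⁻¹

lemma Psi_apply {q q' : ℕ} (χ : DirichletCharacter ℂ q) (χ' : DirichletCharacter ℂ q')
    (n : ℕ) (hn : n.Coprime (q * q')) :
    Psi χ χ' n = χ n * conj (χ' n) := by
  have hl : n.Coprime (Nat.lcm q q') := Nat.Coprime.coprime_dvd_right (Nat.lcm_dvd_mul q q') hn
  have hu : IsUnit (n : ZMod (Nat.lcm q q')) := (ZMod.isUnit_iff_coprime n _).mpr hl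
  have hq' : n.Coprime q' := Nat.Coprime.coprime_mul_left_right hn
  have hu' : IsUnit (n : ZMod q') := (ZMod.isUnit_iff_coprime n _).mpr hq'
  obtain ⟨w, hw⟩ := hu
  have e1 : DirichletCharacter.changeLevel (Nat.dvd_lcm_left q q') χ (n : ZMod (Nat.lcm q q')) =
      χ n := by
    rw [← hw, DirichletCharacter.changeLevel_eq_cast_of_dvd, hw,
      ZMod.cast_natCast (Nat.dvd_lcm_left q q')]
  have e2 : DirichletCharacter.changeLevel (Nat.dvd_lcm_right q q') χ'
      (n : ZMod (Nat.lcm q q')) = χ' n := by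
    rw [← hw, DirichletCharacter.changeLevel_eq_cast_of_dvd, hw,
      ZMod.cast_natCast (Nat.dvd_lcm_right q q')]
  unfold Psi
  rw [MulChar.mul_apply, MulChar.inv_apply_eq_inv', e1, e2]
  congr 1
  obtain ⟨w', hw'⟩ := hu'
  have : ‖χ' n‖ = 1 := by rw [← hw']; exact χ'.unit_norm_eq_one w'
  exact Complex.inv_eq_conj this

end DCL_

open DCL_ in
theorem prove_DCL : T_DCL := by
  intro A1 hA1
  have hA0 : 0 < A1 := by linarith
  refine ⟨8 * A1, ⌈(4 * A1 ^ 2) ^ A1⌉₊ + 2, by linarith, ?_⟩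
  intro x q q' χ χ' g g' hX hg hg' hq hq' hlcm hd hd'
  refine ⟨MB_prod hg hg', Psi χ χ', Psi_apply χ χ', ?_⟩
  have hx2 : 2 ≤ x := by omega
  have hx1 : (1 : ℝ) < x := by exact_mod_cast (by omega : 1 < x)
  have hx0 : (0 : ℝ) < x := by linarith
  have hxbig : (4 * A1 ^ 2) ^ A1 ≤ (x : ℝ) := by
    have h1 : (4 * A1 ^ 2) ^ A1 ≤ (⌈(4 * A1 ^ 2) ^ A1⌉₊ : ℝ) := Nat.le_ceil _
    have h2 : ((⌈(4 * A1 ^ 2) ^ A1⌉₊ : ℕ) : ℝ) ≤ x := by exact_mod_cast (by omega)
    linarith
  have hroot : 4 * A1 ^ 2 ≤ (x : ℝ) ^ (1 / A1) := by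
    have h := Real.rpow_le_rpow (by positivity) hxbig (by positivity : (0:ℝ) ≤ 1 / A1)
    rwa [← Real.rpow_mul (by positivity), mul_one_div_cancel hA0.ne', Real.rpow_one] at h
  set D : Finset ℕ := (Finset.Iic ⌊(x : ℝ)⌋₊).filter
    (fun p : ℕ => p.Prime ∧ (x : ℝ) ^ (1 / A1) < p) with hD
  set y : ℝ := (x : ℝ) ^ (1 / A1) with hy
  have hy0 : 0 < y := by positivity
  have hyA : (x : ℝ) ^ (1 / (8 * A1)) ≤ y := by
    rw [hy]
    apply Real.rpow_le_rpow_of_exponent_le hx1.le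
    apply one_div_le_one_div_of_le hA0
    linarith
  have sub : ∀ {r : ℕ} (f : ℕ → ℂ) (_ : MB f) (ψ : DirichletCharacter ℂ r),
      ∑ p ∈ D, (1 - (f p * conj (ψ (p : ZMod r) * nit 0 p)).re) / (p : ℝ) ≤
      dist2 f ψ 0 ((x : ℝ) ^ (1 / (8 * A1))) x := by
    intro r f hf ψ
    unfold dist2
    refine Finset.sum_le_sum_of_subset_of_nonneg ?_ ?_
    · intro p hp
      rw [hD, Finset.mem_filter] at hp
      rw [Finset.mem_filter]
      exact ⟨hp.1, hp.2.1, lt_of_le_of_lt hyA hp.2.2⟩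
    · intro p _ _
      exact (term_nonneg f hf.bd ψ p).1
  have hprod := MB_prod hg hg'
  have split : dist2 (fun n => g n * conj (g' n)) (Psi χ χ') 0 y x ≤
      ∑ p ∈ D, (2 * ((1 - (g p * conj (χ (p : ZMod q) * nit 0 p)).re) / (p : ℝ)) +
        2 * ((1 - (g' p * conj (χ' (p : ZMod q') * nit 0 p)).re) / (p : ℝ)) +
        (if p ∣ q * q' then 2 / y else 0)) := by
    unfold dist2
    refine Finset.sum_le_sum ?_
    intro p hp
    rw [Finset.mem_filter] at hp
    obtain ⟨_, hpp, hyp⟩ := hp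
    have hp0 : (0 : ℝ) < p := by exact_mod_cast hpp.pos
    have n1 := (term_nonneg g hg.bd χ p).1
    have n2 := (term_nonneg g' hg'.bd χ' p).1
    by_cases hdv : p ∣ q * q'
    · rw [if_pos hdv]
      have h3 := (term_nonneg (fun n => g n * conj (g' n)) hprod.bd (Psi χ χ') p).2
      have h4 : 2 / (p : ℝ) ≤ 2 / y := div_le_div_of_nonneg_left (by norm_num) hy0 hyp.le
      linarith
    · rw [if_neg hdv, add_zero]
      have hcop : p.Coprime (q * q') := (Nat.Prime.coprime_iff_not_dvd hpp).mpr hdv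
      rw [Psi_apply χ χ' p hcop, nit_zero, mul_one, mul_one, mul_one]
      have hu : ‖g p * conj (χ (p : ZMod q))‖ ≤ 1 := by
        rw [norm_mul, RCLike.norm_conj]
        exact mul_le_one₀ (hg.bd p) (norm_nonneg _) (χ.norm_le_one _)
      have hv : ‖conj (g' p * conj (χ' (p : ZMod q')))‖ ≤ 1 := by
        rw [RCLike.norm_conj, norm_mul, RCLike.norm_conj]
        exact mul_le_one₀ (hg'.bd p) (norm_nonneg _) (χ'.norm_le_one _)
      have h5 := two_disc _ _ hu hv
      rw [Complex.conj_re] at h5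
      have e : g p * conj (χ (p : ZMod q)) * conj (g' p * conj (χ' (p : ZMod q'))) =
          g p * conj (g' p) * conj (χ (p : ZMod q) * conj (χ' (p : ZMod q'))) := by
        simp only [map_mul, Complex.conj_conj]
        ring
      rw [e] at h5
      have h6 := div_le_div_of_nonneg_right h5 hp0.le
      calc _ ≤ _ := h6
        _ = _ := by ring
  have hcount : ∑ p ∈ D, (if p ∣ q * q' then 2 / y else 0) ≤ A1 * (2 / y) := by
    rw [← Finset.sum_filter, Finset.sum_const, nsmul_eq_mul]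
    refine mul_le_mul_of_nonneg_right ?_ (by positivity)
    set D' := D.filter (fun p => p ∣ q * q') with hD'
    have hl0 : 0 < Nat.lcm q q' := Nat.lcm_pos (by omega) (by omega)
    have hdvd : ∏ p ∈ D', p ∣ Nat.lcm q q' := by
      apply Finset.prod_primes_dvd
      · intro p hp
        simp only [hD', hD, Finset.mem_filter] at hp
        exact hp.1.2.1.prime
      · intro p hp
        simp only [hD', hD, Finset.mem_filter] at hp
        rcases (Nat.Prime.dvd_mul hp.1.2.1).mp hp.2 with h | h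
        · exact h.trans (Nat.dvd_lcm_left q q')
        · exact h.trans (Nat.dvd_lcm_right q q')
    have hle : ∏ p ∈ D', p ≤ x := (Nat.le_of_dvd hl0 hdvd).trans hlcm
    have hleR : ∏ p ∈ D', (p : ℝ) ≤ x := by
      rw [← Nat.cast_prod]
      exact Nat.cast_le.mpr hle
    have hpow : y ^ D'.card ≤ ∏ p ∈ D', (p : ℝ) := by
      rw [← Finset.prod_const]
      refine Finset.prod_le_prod (fun _ _ => hy0.le) ?_
      intro p hp
      simp only [hD', hD, Finset.mem_filter] at hp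
      exact hp.1.2.2.le
    have h7 : (x : ℝ) ^ (1 / A1 * (D'.card : ℝ)) ≤ (x : ℝ) ^ (1 : ℝ) := by
      rw [Real.rpow_one, Real.rpow_mul hx0.le, Real.rpow_natCast]
      exact hpow.trans hleR
    rw [Real.rpow_le_rpow_left_iff hx1] at h7
    rw [one_div, inv_mul_le_iff₀ hA0, mul_one] at h7
    exact h7
  have hs1 := sub g hg χ
  have hs2 := sub g' hg' χ'
  have hlast : A1 * (2 / y) ≤ 1 / (2 * A1) := by
    rw [mul_div_assoc', div_le_div_iff₀ hy0 (by positivity)]
    nlinarith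
  have h8 : 2 * (1 / (8 * A1)) + 2 * (1 / (8 * A1)) + 1 / (2 * A1) = 1 / A1 := by
    field_simp
    norm_num
  refine split.trans ?_
  rw [Finset.sum_add_distrib, Finset.sum_add_distrib, ← Finset.mul_sum, ← Finset.mul_sum]
  linarith

end Pool.Agent.TPY
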