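import Pool.Agent.TPY.Targets
import Pool.Agent.TPX.CRW
import Pool.Agent.Ell.Main

set_option autoImplicit false

/-! TPY-EXN: the cross sum of the exact functions from the block estimate and the structure
theorem. -/

namespace Pool.Agent.TPY

open Finset Filter Pool.Agent.Ell Pool.Agent.TPM Pool.Agent.TPX
open scoped BigOperators ComplexConjugate

namespace EXN_

/-- the error along a progression -/
theorem prog (g : ℕ → ℝ) (h0 : ∀ n, 0 ≤ g n) (h2 : ∀ n, g n ≤ 2) (a : ℤ) (x p y1 y2 : ℕ)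
    (hp : 1 ≤ p) (hy : p * y2 ≤ x) :
    ∑ m ∈ Finset.Ioc y1 y2, g (sh a (p * m)) ≤ ∑ n ∈ Finset.Icc 1 x, g n +
      2 * (a.natAbs : ℝ) := by
  refine le_trans ?_ (MainAux.sum_sh g h0 h2 a x)
  have hinj : Set.InjOn (fun m : ℕ => p * m) ((Finset.Ioc y1 y2 : Finset ℕ) : Set ℕ) := by
    intro m _ n _ hmn
    exact Nat.eq_of_mul_eq_mul_left hp hmn
  rw [← Finset.sum_image (f := fun n => g (sh a n)) hinj]
  refine Finset.sum_le_sum_of_subset_of_nonneg ?_ (fun i _ _ => h0 _)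
  intro n hn
  rw [Finset.mem_image] at hn
  obtain ⟨m, hm, rfl⟩ := hn
  rw [Finset.mem_Ioc] at hm
  rw [Finset.mem_Icc]
  constructor
  · exact Nat.mul_pos hp (by omega)
  · exact (Nat.mul_le_mul_left p hm.2).trans hy

/-- replacing both factors of a product of bounded terms -/
theorem prod_sub (u v u' v' c c' : ℂ) (hc : ‖c‖ ≤ 1) (hc' : ‖c'‖ ≤ 1) (hu : ‖u'‖ ≤ 1)
    (hv : ‖v‖ ≤ 1) :
    ‖(c * u) * conj (c' * u') - (c * v) * conj (c' * v')‖ ≤ ‖u - v‖ + ‖u' - v'‖ := by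
  have e : (c * u) * conj (c' * u') - (c * v) * conj (c' * v') =
      (c * (u - v)) * conj (c' * u') + (c * v) * conj (c' * (u' - v')) := by
    simp only [map_mul, map_sub]
    ring
  rw [e]
  refine (norm_add_le _ _).trans (add_le_add ?_ ?_)
  · rw [norm_mul, norm_mul, RCLike.norm_conj, norm_mul]
    have h1 : ‖c'‖ * ‖u'‖ ≤ 1 := mul_le_one₀ hc' (norm_nonneg _) hu
    have h2 : ‖c‖ * ‖u - v‖ ≤ ‖u - v‖ := mul_le_of_le_one_left (norm_nonneg _) hc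
    exact (mul_le_of_le_one_right (by positivity) h1).trans h2
  · rw [norm_mul, norm_mul, RCLike.norm_conj, norm_mul]
    have h1 : ‖c‖ * ‖v‖ ≤ 1 := mul_le_one₀ hc (norm_nonneg _) hv
    have h2 : ‖c'‖ * ‖u' - v'‖ ≤ ‖u' - v'‖ := mul_le_of_le_one_left (norm_nonneg _) hc'
    exact (mul_le_of_le_one_left (by positivity) h1).trans h2

end EXN_

theorem prove_EXN (h1 : T_BLN) (h2 : T_STW) (h3 : T_XZ) (h4 : T_XZW) : T_EXN := by
  intro k a b p p' C η κ0 θ ha ha0 hp hp' hpp hpa hpa' hC hη hκ0 hθ hθ1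
  obtain ⟨s, κ, B, z0, hs, hκ, hB, hBLN⟩ :=
    h1 k a b p p' (2 * C) (η / 2) (θ / 2) ha ha0 hp hp' hpp hpa hpa' (by positivity)
      (by positivity) (by positivity) (by linarith)
  obtain ⟨z1, hSTW⟩ := h2 (η * κ0 / 16) (by positivity)
  set z := max z0 z1 with hz
  obtain ⟨V, A0, hA0, hSTW⟩ := hSTW z (le_max_right _ _)
  obtain ⟨R, N0, hBLN⟩ := hBLN z V (le_max_left _ _)
  set A := max A0 (2 * s) with hA
  obtain ⟨X2, hSTW⟩ := hSTW A (κ / 2) (le_max_left _ _) (by positivity)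
  obtain ⟨X, hX⟩ := eventually_atTop.mp
    (((KeyE.large_x κ0 C hκ0 hC (max N0 1)).and
      ((tendsto_natCast_atTop_atTop (R := ℝ)).eventually_ge_atTop
        (32 * ((a b).natAbs : ℝ) / (η * κ0)))).and
      ((CRW_.ev_pow κ0 θ hκ0 hθ).and (eventually_ge_atTop X2)))
  refine ⟨B, A, R, X, hB, hA0.trans (le_max_left _ _), ?_⟩
  intro x N M Ψ f t hx hκN hNx hM hMx hf ht hd hRB y1 y2 hNy hyy hyN hpy hpy'
  obtain ⟨⟨⟨hx1, hx2⟩, hxa⟩, hxp, hxX⟩ := hX x hx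
  obtain ⟨m1, m2, m3⟩ := hx2 N hκN
  have hx1' : (1 : ℝ) ≤ x := by exact_mod_cast hx1
  have hwp := KeyE.w_pow x A s hx1 hs (le_max_right _ _)
  have hMx' : M ≤ x := by
    have h6 : (M : ℝ) ≤ x := by
      refine hMx.trans ?_
      calc (x : ℝ) ^ (1 - θ) ≤ (x : ℝ) ^ (1 : ℝ) :=
            Real.rpow_le_rpow_of_exponent_le hx1' (by linarith)
        _ = x := Real.rpow_one _
    exact_mod_cast h6
  have hY : ((⌊κ / 2 * Real.log x⌋₊ : ℕ) : ℝ) ≤ κ / 2 * Real.log x :=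
    Nat.floor_le (mul_nonneg (by positivity) (Real.log_natCast_nonneg x))
  have hMN : (M : ℝ) ≤ (N : ℝ) ^ (1 - θ / 2) := by
    refine hMx.trans (hxp.trans ?_)
    exact Real.rpow_le_rpow (by positivity) hκN (by linarith)
  have hS := hSTW x f M Ψ 0 hxX hf hM hMx' hd
  set Y := ⌊κ / 2 * Real.log x⌋₊ with hYd
  set w := ⌊(x : ℝ) ^ (1 / A)⌋₊ with hw
  have hBL := hBLN N w M Y Ψ f t ((le_max_left _ _).trans m1) (hwp.trans m3) hM hMN
    (CRW_.log_le x N κ Y hx1 hκ hY m3) hf (fun j => (ht j).trans m2) hRB y1 y2 hNy hyy hyN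
  set D := DY z V Y M with hD
  have hD1 : 1 ≤ D := (h4 z V Y M hM).1
  obtain ⟨-, -, hG, -⟩ := h3.2 M Ψ f 0 D hf hD1
  have hg2 : ∀ n, ‖f n - Gf f Ψ 0 D z w n‖ ≤ 2 := fun n => by
    refine (norm_sub_le _ _).trans ?_
    linarith [hf.bd n, hG z w n]
  have hs1 := EXN_.prog (fun n => ‖f n - Gf f Ψ 0 D z w n‖) (fun _ => norm_nonneg _) hg2 (a b) x
    p y1 y2 hp.one_le hpy
  have hs2 := EXN_.prog (fun n => ‖f n - Gf f Ψ 0 D z w n‖) (fun _ => norm_nonneg _) hg2 (a b) x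
    p' y1 y2 hp'.one_le hpy'
  have ha4 : 4 * ((a b).natAbs : ℝ) ≤ η * κ0 / 8 * x := by
    rw [div_le_iff₀ (by positivity)] at hxa
    linarith
  have e : ∑ m ∈ Finset.Ioc y1 y2, (ph a t (p * m) * f (sh (a b) (p * m))) *
      conj (ph a t (p' * m) * f (sh (a b) (p' * m))) =
      ∑ m ∈ Finset.Ioc y1 y2, (ph a t (p * m) * Gf f Ψ 0 D z w (sh (a b) (p * m))) *
        conj (ph a t (p' * m) * Gf f Ψ 0 D z w (sh (a b) (p' * m))) +
      ∑ m ∈ Finset.Ioc y1 y2, ((ph a t (p * m) * f (sh (a b) (p * m))) *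
        conj (ph a t (p' * m) * f (sh (a b) (p' * m))) -
        (ph a t (p * m) * Gf f Ψ 0 D z w (sh (a b) (p * m))) *
        conj (ph a t (p' * m) * Gf f Ψ 0 D z w (sh (a b) (p' * m)))) := by
    rw [← Finset.sum_add_distrib]
    refine Finset.sum_congr rfl fun n _ => ?_
    ring
  have h10 : ‖∑ m ∈ Finset.Ioc y1 y2, ((ph a t (p * m) * f (sh (a b) (p * m))) *
        conj (ph a t (p' * m) * f (sh (a b) (p' * m))) -
        (ph a t (p * m) * Gf f Ψ 0 D z w (sh (a b) (p * m))) *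
        conj (ph a t (p' * m) * Gf f Ψ 0 D z w (sh (a b) (p' * m))))‖ ≤
      ∑ m ∈ Finset.Ioc y1 y2, ‖f (sh (a b) (p * m)) - Gf f Ψ 0 D z w (sh (a b) (p * m))‖ +
      ∑ m ∈ Finset.Ioc y1 y2, ‖f (sh (a b) (p' * m)) - Gf f Ψ 0 D z w (sh (a b) (p' * m))‖ := by
    rw [← Finset.sum_add_distrib]
    refine (norm_sum_le _ _).trans (Finset.sum_le_sum fun n _ => ?_)
    exact EXN_.prod_sub _ _ _ _ _ _ (KeyA.norm_ph a t _) (KeyA.norm_ph a t _) (hf.bd _)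
      (hG z w _)
  rw [e]
  refine (norm_add_le _ _).trans ?_
  have h11 : η * κ0 / 4 * x ≤ η / 4 * N := by
    have := mul_le_mul_of_nonneg_left hκN (by positivity : 0 ≤ η / 4)
    linarith
  have h12 : 0 ≤ η * N := by positivity
  linarith

end Pool.Agent.TPY
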