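import Pool.Agent.TPY.Targets

/-! # TPY-FCN: factorization of any character at a prime of its conductor -/

set_option autoImplicit false

namespace Pool.Agent.TPY

open Finset Filter Pool.Agent.Ell Pool.Agent.TPM Pool.Agent.TPX
open scoped BigOperators ComplexConjugate

namespace FCN_

/-- `T_FAC` with the modulus as a variable -/
theorem fac' (h1 : T_FAC) {s r₁ r₂ : ℕ} (hs : s = r₁ * r₂) (χ : DirichletCharacter ℂ s)
    (a1 : 1 ≤ r₁) (a2 : 1 ≤ r₂) (hc : r₁.Coprime r₂) (hp : χ.IsPrimitive) :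
    ∃ (ψ₁ : DirichletCharacter ℂ r₁) (ψ₂ : DirichletCharacter ℂ r₂),
      ψ₁.IsPrimitive ∧ ∀ n : ℤ, χ (n : ZMod s) = ψ₁ (n : ZMod r₁) * ψ₂ (n : ZMod r₂) := by
  subst hs
  obtain ⟨ψ₁, ψ₂, h, h'⟩ := h1 r₁ r₂ χ a1 a2 hc hp
  exact ⟨ψ₁, ψ₂, h, fun n => h' n⟩

end FCN_

theorem prove_FCN (h1 : T_FAC) : T_FCN := by
  intro ℓ k M' Ψ hℓ hM hℓM hcon
  have hN : ℓ ^ k * M' ≠ 0 := Nat.mul_ne_zero (pow_ne_zero _ hℓ.ne_zero) (by omega)
  have : NeZero (ℓ ^ k * M') := ⟨hN⟩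
  have hs0 : Ψ.conductor ≠ 0 := DirichletCharacter.conductor_ne_zero Ψ
  obtain ⟨j, s', hs', hs⟩ := Nat.exists_eq_pow_mul_and_not_dvd hs0 ℓ hℓ.ne_one
  have hdv : Ψ.conductor ∣ ℓ ^ k * M' := Ψ.conductor_dvd_level
  have hj1 : 1 ≤ j := by
    rcases Nat.eq_zero_or_pos j with h | h
    · rw [h, pow_zero, one_mul] at hs
      rw [hs] at hcon
      exact absurd hcon hs'
    · exact h
  have hs'0 : 1 ≤ s' := by
    rcases Nat.eq_zero_or_pos s' with h | h
    · rw [h] at hs'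
      exact absurd (dvd_zero ℓ) hs'
    · exact h
  have hcs : ℓ.Coprime s' := (Nat.Prime.coprime_iff_not_dvd hℓ).2 hs'
  have hcM : ℓ.Coprime M' := (Nat.Prime.coprime_iff_not_dvd hℓ).2 hℓM
  have hjk : j ≤ k := by
    have h2 : ℓ ^ j ∣ ℓ ^ k * M' := (hs ▸ Dvd.intro _ rfl : ℓ ^ j ∣ Ψ.conductor).trans hdv
    exact (Nat.pow_dvd_pow_iff_le_right hℓ.one_lt).1
      ((hcM.pow_left j).dvd_of_dvd_mul_right h2)
  have hsM : s' ∣ M' := by
    have h2 : s' ∣ ℓ ^ k * M' := (hs ▸ Dvd.intro_left _ rfl : s' ∣ Ψ.conductor).trans hdv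
    exact (hcs.pow_left k).symm.dvd_of_dvd_mul_left h2
  obtain ⟨φ, χ₂, hφ, hfac⟩ := FCN_.fac' h1 hs Ψ.primitiveCharacter
    (Nat.pos_of_ne_zero (pow_ne_zero _ hℓ.ne_zero)) hs'0 (hcs.pow_left j)
    (DirichletCharacter.primitiveCharacter_isPrimitive Ψ)
  refine ⟨j, φ, DirichletCharacter.changeLevel hsM χ₂, hj1, hjk, ?_, hφ, fun n => ?_⟩
  · intro h
    rw [hs, pow_succ] at h
    exact hs' (Nat.dvd_of_mul_dvd_mul_left (Nat.pos_of_ne_zero (pow_ne_zero _ hℓ.ne_zero)) h)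
  · by_cases hn : IsCoprime n ((ℓ ^ k * M' : ℕ) : ℤ)
    · have hn' : IsCoprime n ((M' : ℕ) : ℤ) := by
        push_cast at hn
        exact hn.of_mul_right_right
      rw [← DirichletCharacter.primitiveCharacter_apply_of_isCoprime _ hn, hfac,
        DirichletCharacter.changeLevel_eq_cast_of_dvd' _ _ hn']
    · rw [(DirichletCharacter.apply_eq_zero_iff Ψ n).2 hn]
      push_cast at hn
      rw [IsCoprime.mul_right_iff, not_and_or] at hn
      rcases hn with hn | hn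
      · have h2 : ¬ IsCoprime n ((ℓ ^ j : ℕ) : ℤ) := by
          intro h
          push_cast at h
          exact hn (IsCoprime.pow_right ((IsCoprime.pow_right_iff hj1).1 h))
        rw [(DirichletCharacter.apply_eq_zero_iff φ n).2 h2, zero_mul]
      · rw [(DirichletCharacter.apply_eq_zero_iff _ n).2 hn, mul_zero]

end Pool.Agent.TPY
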