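import Pool.Agent.TPY.Targets
import Pool.Agent.TPM.MEB
import Pool.Agent.TPM.XZ
import Pool.Agent.EllTw.MEAN

set_option autoImplicit false

/-! TPY-CB: the mean of the cross product at a bounded prime. -/

namespace Pool.Agent.TPY

open Finset Filter Pool.Agent.Ell Pool.Agent.TPM Pool.Agent.TPX
open scoped BigOperators ComplexConjugate

namespace CB_

/-- the mean of the cross product for a fixed `D` -/
lemma fixedD (h1 : T_RAM2) (h2 : T_XZ) (h3 : T_AVG) {a : ℤ} {p p' D : ℕ} (ha : a ≠ 0)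
    (hp : p.Prime) (hp' : p'.Prime) (hpp : p ≠ p') (hQ : 1 ≤ D) :
    ∃ K : ℝ, 0 ≤ K ∧ ∀ (r : ℕ) (ψ : DirichletCharacter ℂ r) (f : ℕ → ℂ) (t : ℝ), 1 ≤ r →
      ψ.IsPrimitive → MB f → ‖mean (D * r) (Lm f ψ t D a p p')‖ ≤ K / r := by
  have hK : ∀ m0 : ℕ, ∃ K : ℝ, ∀ (r : ℕ) (ψ : DirichletCharacter ℂ r), 1 ≤ r → ψ.IsPrimitive →
      ‖∑ m ∈ Finset.range r,
        ψ ((((p : ℤ) * ((D : ℤ) / (Int.gcd ((p : ℤ) * m0 + a) D : ℤ))) * m +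
          ((p : ℤ) * m0 + a) / (Int.gcd ((p : ℤ) * m0 + a) D : ℤ) : ℤ) : ZMod r) *
        conj (ψ ((((p' : ℤ) * ((D : ℤ) / (Int.gcd ((p' : ℤ) * m0 + a) D : ℤ))) * m +
          ((p' : ℤ) * m0 + a) / (Int.gcd ((p' : ℤ) * m0 + a) D : ℤ) : ℤ) : ZMod r))‖ ≤ K := by
    intro m0
    have hdiv : ∀ n : ℤ, (D : ℤ) / (Int.gcd n D : ℤ) ≠ 0 := by
      intro n
      have he0 : ((Int.gcd n D : ℕ) : ℤ) ≠ 0 := by
        exact_mod_cast (MEB_.gcd_pos hQ n).ne'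
      obtain ⟨v, hv⟩ : ((Int.gcd n D : ℕ) : ℤ) ∣ (D : ℤ) := Int.gcd_dvd_right _ _
      generalize ((Int.gcd n D : ℕ) : ℤ) = e at he0 hv ⊢
      intro h0
      rw [hv, Int.mul_ediv_cancel_left _ he0] at h0
      rw [h0, mul_zero] at hv
      have : (D : ℤ) ≠ 0 := by exact_mod_cast (by omega : D ≠ 0)
      exact this hv
    refine h1 _ _ _ _ (mul_ne_zero (by exact_mod_cast hp.pos.ne') (hdiv _))
      (mul_ne_zero (by exact_mod_cast hp'.pos.ne') (hdiv _)) ?_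
    exact MEB_.det_ne ha hpp hQ
  choose K hK using hK
  refine ⟨∑ m0 ∈ Finset.range D, (|K m0| + 1), Finset.sum_nonneg fun i _ => by positivity, ?_⟩
  intro r ψ f t hr hψ hf
  obtain ⟨-, h2b⟩ := h2
  obtain ⟨-, -, -, -, -, hxz⟩ := h2b r ψ f t D hf hQ
  have hxn : ∀ n : ℤ, ‖f (Int.gcd n D) * conj (nit t (Int.gcd n D))‖ ≤ 1 := by
    intro n
    rw [norm_mul, RCLike.norm_conj, Rep.nit_norm t (MEB_.gcd_pos hQ n), mul_one]
    exact hf.bd _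
  apply h3 r D _ _ hr hQ
  intro m0 hm0
  have hle : |K m0| + 1 ≤ ∑ m0 ∈ Finset.range D, (|K m0| + 1) :=
    Finset.single_le_sum (f := fun m0 => |K m0| + 1) (fun i _ => by positivity)
      (Finset.mem_range.2 hm0)
  have hsum : ∑ s ∈ Finset.range r, Lm f ψ t D a p p' (m0 + D * s) =
      (f (Int.gcd ((p : ℤ) * m0 + a) D) * conj (nit t (Int.gcd ((p : ℤ) * m0 + a) D))) *
      conj (f (Int.gcd ((p' : ℤ) * m0 + a) D) *
        conj (nit t (Int.gcd ((p' : ℤ) * m0 + a) D))) *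
      ∑ m ∈ Finset.range r,
        ψ ((((p : ℤ) * ((D : ℤ) / (Int.gcd ((p : ℤ) * m0 + a) D : ℤ))) * m +
          ((p : ℤ) * m0 + a) / (Int.gcd ((p : ℤ) * m0 + a) D : ℤ) : ℤ) : ZMod r) *
        conj (ψ ((((p' : ℤ) * ((D : ℤ) / (Int.gcd ((p' : ℤ) * m0 + a) D : ℤ))) * m +
          ((p' : ℤ) * m0 + a) / (Int.gcd ((p' : ℤ) * m0 + a) D : ℤ) : ℤ) : ZMod r)) := by
    rw [Finset.mul_sum]
    refine Finset.sum_congr rfl fun s _ => ?_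
    unfold Lm
    have e1 : (p : ℤ) * ((m0 + D * s : ℕ) : ℤ) + a =
        ((p : ℤ) * m0 + a) + (D : ℤ) * ((p : ℤ) * s) := by
      push_cast; ring
    have e2 : (p' : ℤ) * ((m0 + D * s : ℕ) : ℤ) + a =
        ((p' : ℤ) * m0 + a) + (D : ℤ) * ((p' : ℤ) * s) := by
      push_cast; ring
    rw [e1, e2, hxz, hxz]
    have e3 : ((p : ℤ) * m0 + a) / (Int.gcd ((p : ℤ) * m0 + a) D : ℤ) +
        (D : ℤ) / (Int.gcd ((p : ℤ) * m0 + a) D : ℤ) * ((p : ℤ) * s) =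
        ((p : ℤ) * ((D : ℤ) / (Int.gcd ((p : ℤ) * m0 + a) D : ℤ))) * s +
          ((p : ℤ) * m0 + a) / (Int.gcd ((p : ℤ) * m0 + a) D : ℤ) := by ring
    have e4 : ((p' : ℤ) * m0 + a) / (Int.gcd ((p' : ℤ) * m0 + a) D : ℤ) +
        (D : ℤ) / (Int.gcd ((p' : ℤ) * m0 + a) D : ℤ) * ((p' : ℤ) * s) =
        ((p' : ℤ) * ((D : ℤ) / (Int.gcd ((p' : ℤ) * m0 + a) D : ℤ))) * s +
          ((p' : ℤ) * m0 + a) / (Int.gcd ((p' : ℤ) * m0 + a) D : ℤ) := by ring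
    rw [e3, e4, map_mul]
    ring
  rw [hsum, norm_mul]
  have hc : ‖(f (Int.gcd ((p : ℤ) * m0 + a) D) *
      conj (nit t (Int.gcd ((p : ℤ) * m0 + a) D))) *
      conj (f (Int.gcd ((p' : ℤ) * m0 + a) D) *
        conj (nit t (Int.gcd ((p' : ℤ) * m0 + a) D)))‖ ≤ 1 := by
    rw [norm_mul, RCLike.norm_conj]
    exact mul_le_one₀ (hxn _) (norm_nonneg _) (hxn _)
  calc _ ≤ 1 * K m0 := mul_le_mul hc (hK m0 r ψ hr hψ) (norm_nonneg _) zero_le_one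
    _ ≤ |K m0| + 1 := by rw [one_mul]; linarith [le_abs_self (K m0)]
    _ ≤ _ := hle

end CB_

theorem prove_CB (h1 : T_RAM2) : T_CB := by
  intro a p p' E ha hp hp' hpp
  have h : ∀ D : ℕ, ∃ K : ℝ, 0 ≤ K ∧ (1 ≤ D → ∀ (r : ℕ) (ψ : DirichletCharacter ℂ r)
      (f : ℕ → ℂ) (t : ℝ), 1 ≤ r → ψ.IsPrimitive → MB f →
        ‖mean (D * r) (Lm f ψ t D a p p')‖ ≤ K / r) := by
    intro D
    by_cases hD : 1 ≤ D
    · obtain ⟨K, hK0, hK⟩ := CB_.fixedD h1 prove_XZ prove_AVG ha hp hp' hpp hD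
      exact ⟨K, hK0, fun _ => hK⟩
    · exact ⟨0, le_rfl, fun h => absurd h hD⟩
  choose K hK0 hK using h
  refine ⟨1 + ∑ D ∈ Finset.range (E + 1), K D, ?_, ?_⟩
  · have := Finset.sum_nonneg (s := Finset.range (E + 1)) fun D _ => hK0 D
    linarith
  intro ℓ i j k φ f t hℓ hj hjk hφ hf hE
  have hi : 1 ≤ ℓ ^ i := Nat.one_le_pow _ _ hℓ.pos
  have hjp : 1 ≤ ℓ ^ j := Nat.one_le_pow _ _ hℓ.pos
  have hkp : 1 ≤ ℓ ^ k := Nat.one_le_pow _ _ hℓ.pos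
  have hper := ((prove_XZ.2 (ℓ ^ j) φ f t (ℓ ^ i) hf hi).2.2.2.1) a p p'
  have hm : mean (ℓ ^ i * ℓ ^ k) (Lm f φ t (ℓ ^ i) a p p') =
      mean (ℓ ^ i * ℓ ^ j) (Lm f φ t (ℓ ^ i) a p p') :=
    EllTw.MEAN_.mean_per_dvd hper (Nat.mul_dvd_mul_left _ (pow_dvd_pow _ hjk))
      (Nat.mul_pos hi hjp) (Nat.mul_pos hi hkp)
  rw [hm]
  have h4 := hK (ℓ ^ i) hi (ℓ ^ j) φ f t hjp hφ hf
  rw [Nat.cast_pow] at h4
  refine h4.trans ?_
  have hle : K (ℓ ^ i) ≤ ∑ D ∈ Finset.range (E + 1), K D := by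
    refine Finset.single_le_sum (f := K) (fun D _ => hK0 D) (Finset.mem_range.2 ?_)
    have : ℓ ^ i ≤ ℓ ^ (i + 1) := Nat.pow_le_pow_right hℓ.pos (by omega)
    omega
  have hl : (0 : ℝ) < (ℓ : ℝ) ^ j := by
    have : (0 : ℝ) < ℓ := by exact_mod_cast hℓ.pos
    positivity
  exact div_le_div_of_nonneg_right (by linarith) hl.le

end Pool.Agent.TPY
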