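import Pool.Agent.TPY.Targets
import Pool.Agent.TPX.LFI

set_option autoImplicit false

/-! The final theorem: one function structured on the large primes, all the others arbitrary, for
all but boundedly many characters. -/

namespace Pool.Agent.TPY

open Finset Filter Pool.Agent.Ell Pool.Agent.Ell.KeyA Pool.Agent.EllTw Pool.Agent.EllTw.FIN_
open Pool.Agent.TPX
open scoped BigOperators ComplexConjugate

namespace YFI_

theorem norm_Wg {k : ℕ} (a : Fin k → ℤ) (b : Fin k) (g : ℕ → ℂ) (hg : ∀ n, ‖g n‖ ≤ 1)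
    (t : Fin k → ℝ) (n : ℕ) : ‖Wg a b g t n‖ ≤ 1 := by
  unfold Wg
  rw [norm_mul]
  exact mul_le_one₀ (hg _) (norm_nonneg _) (norm_ph _ _ _)

/-- the distance at `N` is at most the sum in the statement at `x` -/
theorem dist_le {q : ℕ} (χ : DirichletCharacter ℂ q) (g : ℕ → ℂ) (hg : ∀ n, ‖g n‖ ≤ 1)
    {x δ c : ℝ} (hx : x ^ δ ≤ ((⌊x⌋₊ : ℕ) : ℝ) ^ c) :
    dist2 g χ 0 (((⌊x⌋₊ : ℕ) : ℝ) ^ c) ((⌊x⌋₊ : ℕ) : ℝ) ≤
      ∑ p ∈ (Finset.Iic ⌊x⌋₊).filter (fun p : ℕ => p.Prime ∧ x ^ δ < p),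
        (1 - (g p * (starRingEnd ℂ) (χ (p : ZMod q))).re) / (p : ℝ) := by
  unfold dist2
  rw [Nat.floor_natCast]
  have e1 : ∀ p : ℕ, (1 - (g p * conj (χ (p : ZMod q) * nit 0 p)).re) / (p : ℝ) =
      (1 - (g p * (starRingEnd ℂ) (χ (p : ZMod q))).re) / (p : ℝ) := by
    intro p
    have : nit 0 p = 1 := by
      unfold nit
      simp
    rw [this, mul_one]
  rw [Finset.sum_congr rfl fun p _ => e1 p]
  refine Finset.sum_le_sum_of_subset_of_nonneg ?_ ?_
  · intro p hp
    rw [Finset.mem_filter] at hp ⊢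
    exact ⟨hp.1, hp.2.1, lt_of_le_of_lt hx hp.2.2⟩
  · intro p _ _
    refine div_nonneg ?_ (Nat.cast_nonneg p)
    have h1 : (g p * (starRingEnd ℂ) (χ (p : ZMod q))).re ≤ 1 := by
      refine (Complex.re_le_norm _).trans ?_
      rw [norm_mul, RCLike.norm_conj]
      exact mul_le_one₀ (hg p) (norm_nonneg _) (DirichletCharacter.norm_le_one χ _)
    linarith

end YFI_

open Pool.Agent.EllTw.Final_ YFI_ in
/-- the final theorem -/
theorem prove_YFI (h1 : T_YTW) : T_YFI := by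
  classical
  intro k h hh b C ε θ hε hθ
  set a : Fin k → ℤ := fun j => (h j.succ : ℤ) - h 0 with ha
  have hai : Function.Injective a := by
    intro i j hij
    have h1 : (h i.succ : ℤ) = h j.succ := by
      simp only [ha] at hij
      linarith
    have h2 : h i.succ = h j.succ := by exact_mod_cast h1
    exact Fin.succ_injective _ (hh h2)
  have ha0 : ∀ j, a j ≠ 0 := by
    intro j hj
    simp only [ha] at hj
    have h1 : (h j.succ : ℤ) = h 0 := by linarith
    have h2 : h j.succ = h 0 := by exact_mod_cast h1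
    exact Fin.succ_ne_zero j (hh h2)
  set C1 := max C 1 with hC1
  have hC1p : 0 < C1 := lt_of_lt_of_le one_pos (le_max_right _ _)
  obtain ⟨J, X0, B, A, hA, HT⟩ := h1 k a b (2 * C1) (ε / 2) (θ / 2) hai ha0 (by positivity)
    (by positivity) (by positivity)
  have hA0 : 0 < A := lt_of_lt_of_le one_pos hA
  have hδ0 : (0 : ℝ) < 1 / (2 * A) := by positivity
  refine ⟨1 / (2 * A), J, max B 0, max (max (X0 + 4) (4 * h 0 / ε + 4)) (2 ^ (2 / θ)), hδ0, ?_⟩
  intro x hx Qs hQs D hD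
  have hx1 : (X0 : ℝ) + 4 ≤ x := (le_max_left _ _).trans ((le_max_left _ _).trans hx)
  have hx2 : 4 * (h 0 : ℝ) / ε + 4 ≤ x := (le_max_right _ _).trans ((le_max_left _ _).trans hx)
  have hx3 : (2 : ℝ) ^ (2 / θ) ≤ x := (le_max_right _ _).trans hx
  have hX0 : (0 : ℝ) ≤ X0 := by positivity
  have hx4 : 4 ≤ x := by linarith
  have hx0 : 0 < x := by linarith
  set N := ⌊x⌋₊ with hN
  have hNx : (N : ℝ) ≤ x := Nat.floor_le hx0.le
  have hxN : x < N + 1 := Nat.lt_floor_add_one x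
  have hXN : X0 ≤ N := by
    have : (X0 : ℝ) ≤ N := by linarith
    exact_mod_cast this
  have hN3 : (3 : ℝ) ≤ N := by linarith
  have hxN2 : x ≤ (N : ℝ) ^ (2 : ℝ) := by
    rw [Real.rpow_two]
    nlinarith
  have hpow : ∀ c' : ℝ, 0 < c' → x ^ c' ≤ (N : ℝ) ^ (2 * c') := by
    intro c' hc'
    rw [Real.rpow_mul (by positivity)]
    exact Real.rpow_le_rpow hx0.le hxN2 hc'.le
  set D' : ℕ → ℂ := fun m => D (m - h 0) with hD'
  have hlcm : ∀ q ∈ Qs, ∀ q' ∈ Qs, ((Nat.lcm q q' : ℕ) : ℝ) ≤ (N : ℝ) ^ (1 - θ / 2) := by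
    intro q hq q' hq'
    have h3 := XFI_.pow_cmp (x := x) (N := (N : ℝ)) (e := 1 - θ / 2) hθ (by linarith)
      (by linarith) hNx (by linarith) hx3
    refine (hQs q hq q' hq').trans (le_trans (le_of_eq ?_) h3)
    congr 1
    ring
  let Bad : Pt k → Prop := fun e => 1 ≤ e.q ∧ e.q ∈ Qs ∧
    (∀ j, |e.t j| ≤ (N : ℝ) ^ (2 * C1)) ∧
    ∃ f g : ℕ → ℂ, MB f ∧ MB g ∧ dist2 g e.χ 0 ((N : ℝ) ^ (1 / A)) N ≤ 1 / A ∧
      ε / 2 * N < ‖∑ m ∈ Finset.Icc 1 N, f m * (D' m * Wg a b g e.t m)‖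
  obtain ⟨S, hS1, hS2, hS3⟩ := exists_max a (max B 0) (le_max_right _ _) N J Bad (by
    intro S hS hsep
    refine HT N hXN D' (fun n => hD _) S
      (fun e he => ⟨(hS e he).1, (hS e he).2.2.1, (hS e he).2.2.2⟩)
      (fun e he e' he' => hlcm _ (hS e he).2.1 _ (hS e' he').2.1) ?_
    intro e he e' he' hne hsame
    obtain ⟨l, hl, hl2⟩ := hsep e he e' he' hne hsame
    exact ⟨l, hl, lt_of_le_of_lt (mul_le_mul_of_nonneg_right (le_max_left _ _) (by positivity))
      hl2⟩)
  refine ⟨S.image (fun e => ⟨e.q, (e.χ, e.t)⟩), Finset.card_image_le.trans hS1, ?_, ?_⟩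
  · intro e he
    obtain ⟨e', he', rfl⟩ := Finset.mem_image.mp he
    exact ⟨(hS2 e' he').1, (hS2 e' he').2.1⟩
  intro q χ t hq hqx ht
  set e : Pt k := ⟨q, χ, t⟩ with hedef
  by_cases hbad : Bad e
  · left
    obtain ⟨e', he', hsame, hl⟩ := hS3 e hbad
    refine ⟨⟨e'.q, (e'.χ, e'.t)⟩, Finset.mem_image.mpr ⟨e', he', rfl⟩, hsame, ?_⟩
    intro l hl1
    have h1 := hl l hl1
    have h2 : tau a (fun j => e.t j - e'.t j) l =
        ∑ j, (t j - e'.t j) * ((h j.succ : ℝ) - h 0) ^ l := by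
      unfold tau
      refine Finset.sum_congr rfl (fun j _ => ?_)
      simp only [ha, hedef]
      push_cast
      ring
    rw [h2] at h1
    refine h1.trans ?_
    refine mul_le_mul_of_nonneg_left ?_ (le_max_right _ _)
    exact pow_le_pow_left₀ (by positivity) hNx l
  · right
    intro f g hf hg hfb hgb hdist
    have hfMB : MB (fun n => f n) := ⟨hf.map_one, fun m n hmn => hf.map_mul_of_coprime hmn, hfb⟩
    have hgMB : MB (fun n => g n) := ⟨hg.map_one, fun m n hmn => hg.map_mul_of_coprime hmn, hgb⟩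
    have hdN : dist2 (fun n => g n) χ 0 ((N : ℝ) ^ (1 / A)) N ≤ 1 / A := by
      have h3 : x ^ (1 / (2 * A)) ≤ (N : ℝ) ^ (1 / A) := by
        refine (hpow _ hδ0).trans (le_of_eq ?_)
        congr 1
        field_simp
      refine (dist_le χ (fun n => g n) hgb h3).trans (hdist.trans ?_)
      exact one_div_le_one_div_of_le hA0 (by linarith)
    have hsmall : ‖∑ m ∈ Finset.Icc 1 N, f m * (D' m * Wg a b (fun n => g n) t m)‖ ≤
        ε / 2 * N := by
      by_contra hcon
      push Not at hcon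
      refine hbad ⟨hq, hqx, ?_, fun n => f n, fun n => g n, hfMB, hgMB, hdN, hcon⟩
      intro j
      refine (ht j).trans (le_trans ?_ (hpow C1 hC1p))
      exact Real.rpow_le_rpow_of_exponent_le (by linarith) (le_max_left _ _)
    have hsh := shift_sum (fun m => f m * (D' m * Wg a b (fun n => g n) t m)) (by
      intro n
      rw [norm_mul, norm_mul]
      exact mul_le_one₀ (hfb n) (by positivity)
        (mul_le_one₀ (hD _) (norm_nonneg _) (norm_Wg a b _ hgb t n))) (h 0) N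
    have hsum : ∑ n ∈ Finset.Icc 1 N, f (n + h 0) *
        (D' (n + h 0) * Wg a b (fun n => g n) t (n + h 0)) =
        ∑ n ∈ Finset.Icc 1 N, D n * f (n + h 0) * g (n + h b.succ) *
            ∏ j, ((n + h j.succ : ℕ) : ℂ) ^ ((t j : ℂ) * Complex.I) := by
      refine Finset.sum_congr rfl (fun n _ => ?_)
      have e1 : D' (n + h 0) = D n := by simp [hD']
      have e2 : sh (a b) (n + h 0) = n + h b.succ := by
        unfold sh
        simp only [ha]
        push_cast
        have : ((n : ℤ) + h 0 + ((h b.succ : ℤ) - h 0)) = ((n + h b.succ : ℕ) : ℤ) := by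
          push_cast
          ring
        rw [this, Int.toNat_natCast]
      have e3 : ph a t (n + h 0) = ∏ j, ((n + h j.succ : ℕ) : ℂ) ^ ((t j : ℂ) * Complex.I) := by
        unfold ph nit
        refine Finset.prod_congr rfl (fun j _ => ?_)
        congr 2
        unfold sh
        simp only [ha]
        push_cast
        have : ((n : ℤ) + h 0 + ((h j.succ : ℤ) - h 0)) = ((n + h j.succ : ℕ) : ℤ) := by
          push_cast
          ring
        rw [this, Int.toNat_natCast]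
      rw [e1]
      change f (n + h 0) * (D n * (g (sh (a b) (n + h 0)) * ph a t (n + h 0))) = _
      rw [e2, e3]
      ring
    rw [← hsum, div_le_iff₀ hx0]
    refine hsh.trans ?_
    have h1 : 4 * (h 0 : ℝ) / ε ≤ x - 4 := by linarith
    rw [div_le_iff₀ hε] at h1
    have h2 : ε / 2 * N ≤ ε / 2 * x := mul_le_mul_of_nonneg_left hNx (by positivity)
    nlinarith

end Pool.Agent.TPY
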