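import Pool.Agent.TPY.FCN
import Pool.Agent.TPY.RED
import Pool.Agent.TPY.CA
import Pool.Agent.TPY.CB
import Pool.Agent.TPY.MNN
import Pool.Agent.TPY.BLN
import Pool.Agent.TPY.EXN
import Pool.Agent.TPY.DCL
import Pool.Agent.TPY.YBL
import Pool.Agent.TPY.YTW
import Pool.Agent.TPY.YFI
import Pool.Agent.TPX.XZW
import Pool.Agent.TPX.EQW
import Pool.Agent.TPX.MSW
import Pool.Agent.TPX.STW
import Pool.Agent.TPM.RAM2
import Pool.Agent.TPM.FAC
import Pool.Agent.TPM.XZ
import Pool.Agent.EllTw.RAM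
import Pool.Agent.EllTw.INJ
import Pool.Agent.Ell.All
import Pool.Agent.Ell.Core

set_option autoImplicit false

/-! One structured function, all the others arbitrary, outside boundedly many characters:
assembly. -/

namespace Pool.Agent.TPY

open Pool.Agent.Ell Pool.Agent.TPM Pool.Agent.TPX

theorem all_EXN : T_EXN := by
  have hms : T_MSW := prove_MSW (p_FL p_MERT) p_CRT
  have heq : T_EQW := prove_EQW p_CORE p_PHI
  have hosc : T_OSC := p_OSC p_CORE p_PHI
  have hmn : T_MNN := prove_MNN (prove_FCN prove_FAC) prove_RED (prove_CA EllTw.p_RAM)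
    (prove_CB prove_RAM2) prove_XZW
  exact prove_EXN (prove_BLN hms heq hosc hmn prove_XZ prove_XZW)
    (prove_STW p_MERT prove_XZ prove_XZW) prove_XZ prove_XZW

theorem all_YFI : T_YFI :=
  prove_YFI (prove_YTW p_KAT (prove_YBL EllTw.p_INJ EllTw.p_DUAL all_EXN prove_DCL))

end Pool.Agent.TPY
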