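import Pool.Agent.TPX.Targets

set_option autoImplicit false

/-! MP_f3f922_nt: one function structured on the large primes, all the others arbitrary, for all but
boundedly many characters: targets. If `g`, `g'` are structured with characters `χ`, `χ'`, then
`g conj g'` is structured with the (not primitive) character `Ψ = χ conj χ'` of modulus
`M = lcm q q'`, so everything is reduced to ONE structured function with a character `Ψ` mod `M` of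
large conductor. `Gf`, `Lm`, `xz`, `zt` are those of `TPM`, `DY` that of `TPX`. -/

namespace Pool.Agent.TPY

open Finset Filter Pool.Agent.Ell Pool.Agent.TPM Pool.Agent.TPX
open scoped BigOperators ComplexConjugate

/-- TPY-FCN (from `T_FAC`). Factorization of any character at a prime of its conductor.
PROOF. `s = Ψ.conductor = ℓ ^ j s'`, `ℓ ∤ s'`; `s ∣ ℓ ^ k M'`, so `j ≤ k`, `s' ∣ M'`. `T_FAC` for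
`Ψ.primitiveCharacter` gives `φ` (primitive) and `χ₂` mod `s'`; `Ψ₂ = changeLevel χ₂` to `M'`. For
`n` prime to the modulus all sides agree; if `ℓ ∣ n` then `φ n = 0 = Ψ n` (`1 ≤ j ≤ k`); if
`gcd(n, M') > 1` then `Ψ₂ n = 0 = Ψ n`. -/
def T_FCN : Prop := ∀ (ℓ k M' : ℕ) (Ψ : DirichletCharacter ℂ (ℓ ^ k * M')), ℓ.Prime → 1 ≤ M' →
  ¬ ℓ ∣ M' → ℓ ∣ Ψ.conductor → ∃ (j : ℕ) (φ : DirichletCharacter ℂ (ℓ ^ j))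
  (Ψ₂ : DirichletCharacter ℂ M'), 1 ≤ j ∧ j ≤ k ∧ ¬ ℓ ^ (j + 1) ∣ Ψ.conductor ∧ φ.IsPrimitive ∧
  ∀ n : ℤ, Ψ (n : ZMod (ℓ ^ k * M')) = φ (n : ZMod (ℓ ^ j)) * Ψ₂ (n : ZMod M')

/-- TPY-RED (uses `TPM.prove_AVG`, `MEA_.sum_aff`). Reduction of the mean to the prime `ℓ`.
PROOF. Let `q = ℓ ^ (i + k)`, `T = D' M'`; the period is `T q`, `ℓ ∤ T`. By `T_AVG` fix `m0` and let
`m = m0 + T s`, `n = p m + a`, `e' = gcd(n, D')` (independent of `s`), `e = gcd(n, ℓ ^ i)`. Then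
`gcd(n, ℓ ^ i D') = e e'` and `xz f Ψ t (ℓ ^ i D') n = κ * xz f~ φ t (ℓ ^ i) n` with
`f~ = f conj Ψ₂`, `κ = f(e') conj(nit e') conj(φ e') Ψ₂(n / e')`: indeed `f`, `nit` are
multiplicative, `φ(n / (e e')) = φ(n / e) conj(φ e')` as `|φ(e')| = 1` (`ℓ ∤ e'`),
`Ψ₂(n / (e e')) = Ψ₂(n / e') conj(Ψ₂ e)` as `|Ψ₂(e)| = 1` (`ℓ ∤ M'`). `κ` does not depend on `s`
(`n / e' = n0 / e' + (D' / e') M' p s`), `|κ| ≤ 1`. So the sum over `s < q` is `κ conj κ'` times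
`∑ (s < q), Θ(m0 + T s)`, `Θ = Lm f~ φ t (ℓ ^ i) a p p'` has period `ℓ ^ (i + j) ∣ q`, `T` is prime
to `q`, so it is the sum over `range q`. See `TPM.MEA_.xz_prog`, `MEA_.core`, `TPX.MEW_`. -/
def T_RED : Prop := ∀ (ℓ i j k D' M' : ℕ) (φ : DirichletCharacter ℂ (ℓ ^ j))
  (Ψ₂ : DirichletCharacter ℂ M') (Ψ : DirichletCharacter ℂ (ℓ ^ k * M')) (f : ℕ → ℂ) (t : ℝ)
  (a : ℤ) (p p' : ℕ), ℓ.Prime → 1 ≤ j → j ≤ k → 1 ≤ D' → 1 ≤ M' → ¬ ℓ ∣ D' → ¬ ℓ ∣ M' → MB f →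
  (∀ n : ℤ, Ψ (n : ZMod (ℓ ^ k * M')) = φ (n : ZMod (ℓ ^ j)) * Ψ₂ (n : ZMod M')) →
  MB (fun n => f n * conj (Ψ₂ (n : ZMod M'))) ∧
  ‖mean ((ℓ ^ i * D') * (ℓ ^ k * M')) (Lm f Ψ t (ℓ ^ i * D') a p p')‖ ≤
    ‖mean (ℓ ^ i * ℓ ^ k) (Lm (fun n => f n * conj (Ψ₂ (n : ZMod M'))) φ t (ℓ ^ i) a p p')‖

/-- TPY-CA (from `EllTw.T_RAM`). The mean at a prime `ℓ ∤ p p'`.
PROOF. `K = |K0| + 2`, `K0` of `T_RAM`. If `ℓ ∤ n`, `n = p m + a`, then `gcd(n, ℓ ^ i) = 1`,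
`xz = φ(n)`; if `ℓ ∣ n` then `φ(n) = 0`, `|xz| ≤ 1`. So the sum of `Lm` over `m < q = ℓ ^ (i + k)`
differs from `∑ φ(p m + a) conj φ(p' m + a)` by at most `#(m : ℓ ∣ p m + a) + #(ℓ ∣ p' m + a) ≤
2 q / ℓ` (`MEA_.count` is such a count), and that sum is `q / ℓ ^ j` times the complete sum. -/
def T_CA : Prop := ∀ (a : ℤ) (p p' : ℕ), a ≠ 0 → p.Prime → p'.Prime → p ≠ p' →
  ∃ K : ℝ, 0 < K ∧ ∀ (ℓ i j k : ℕ) (φ : DirichletCharacter ℂ (ℓ ^ j)) (f : ℕ → ℂ) (t : ℝ),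
  ℓ.Prime → 1 ≤ j → j ≤ k → φ.IsPrimitive → MB f → ¬ ℓ ∣ p → ¬ ℓ ∣ p' →
  ‖mean (ℓ ^ i * ℓ ^ k) (Lm f φ t (ℓ ^ i) a p p')‖ ≤ K / ℓ

/-- TPY-CB (from `T_RAM2`, uses `T_XZ`, `T_AVG`). The mean at a bounded prime.
PROOF. `Lm` has period `ℓ ^ (i + j)`, so the mean is that over `ℓ ^ (i + 1) * ℓ ^ j`
(`EllTw.MEAN_.mean_per_dvd` twice). `T_AVG` with `M = ℓ ^ (i + 1)`, `q = ℓ ^ j`: fix
`m0 < ℓ ^ (i + 1) ≤ E`, `m = m0 + ℓ ^ (i + 1) s`. With `n0 = p m0 + a`, `e = gcd(n0, ℓ ^ i)`, the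
last part of `T_XZ` gives `xz (p m + a) = const * φ(n0 / e + p (ℓ ^ (i + 1) / e) s)`, same for
`p'`, `n0'`, `e'`. `T_RAM2` with `α = n0 / e`, `β = p ℓ ^ (i + 1) / e`, `α'`, `β'`:
`α β' - α' β = ℓ ^ (i + 1) (n0 p' - n0' p) / (e e') = ℓ ^ (i + 1) a (p' - p) / (e e') ≠ 0`. Only
finitely many `(α, β, α', β')` occur (`m0, ℓ ^ (i + 1), e, e' ≤ E`): `K` = 1 + the sum of all
`|K(α, α', β, β')|` over `m0, P, e, e' ≤ E` with `α = (p m0 + a) / e`, `β = p (P / e)`, .. (for the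
admissible ones). -/
def T_CB : Prop := ∀ (a : ℤ) (p p' E : ℕ), a ≠ 0 → p.Prime → p'.Prime → p ≠ p' →
  ∃ K : ℝ, 0 < K ∧ ∀ (ℓ i j k : ℕ) (φ : DirichletCharacter ℂ (ℓ ^ j)) (f : ℕ → ℂ) (t : ℝ),
  ℓ.Prime → 1 ≤ j → j ≤ k → φ.IsPrimitive → MB f → ℓ ^ (i + 1) ≤ E →
  ‖mean (ℓ ^ i * ℓ ^ k) (Lm f φ t (ℓ ^ i) a p p')‖ ≤ K / (ℓ : ℝ) ^ j

/-- TPY-MNN (from `T_FCN`, `T_RED`, `T_CA`, `T_CB`, `T_XZW`). The mean for a large conductor.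
PROOF. `z0 ≥ K / η, p, p'` (`K` of `T_CA`). Given `z, V` let `K'` be that of `T_CB` with
`E = Rep.Q1 z V * (z + 1)`, `R1 = ⌈K' / η⌉ + 1`, `R = R1 ^ (z + 1)`. Let `s = Ψ.conductor > R`. If
a prime `ℓ > z` divides `s`, write `M = ℓ ^ k M'`, `D = DY z V Y M = ℓ ^ i D'`, use `T_FCN`,
`T_RED`, `T_CA`: mean `≤ K / ℓ ≤ η`. If all primes of `s` are `≤ z` then some `ℓ` has
`ℓ ^ (j) > R1`, `ℓ ^ j` the exact power in `s` (otherwise `s = ∏ ≤ R1 ^ z`); `ℓ ^ i ∣ Rep.Q1 z V`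
(the other factor of `DY` is prime to `ℓ ≤ z`), so `ℓ ^ (i + 1) ≤ E`, and `T_CB`:
mean `≤ K' / ℓ ^ j ≤ η`. -/
def T_MNN : Prop := ∀ (a : ℤ) (p p' : ℕ) (η : ℝ), a ≠ 0 → p.Prime → p'.Prime → p ≠ p' → 0 < η →
  ∃ z0 : ℕ, ∀ z V : ℕ, z0 ≤ z → ∃ R : ℕ, ∀ (Y M : ℕ) (Ψ : DirichletCharacter ℂ M) (f : ℕ → ℂ)
  (t : ℝ), 1 ≤ M → R < Ψ.conductor → MB f →
  ‖mean (DY z V Y M * M) (Lm f Ψ t (DY z V Y M) a p p')‖ ≤ η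

/-- TPY-BLN (from `T_MSW`, `T_EQW`, `T_OSC`, `T_MNN`, `T_XZ`, `T_XZW`). One dyadic block,
`k` phases, any character.
PROOF. Adapt `Pool/Agent/TPX/BLW.lean`: `a`, `t` are now vectors in the phase part
(`KeyA.ph_cross a t p p'`, `T_EQW k a`, `T_OSC k a`), `a b` is the shift of the structured function
`Gf f Ψ 0 ..` (its factor `nit 0 n = 1`), `T_MNN` with `a b` instead of `T_MNW`. -/
def T_BLN : Prop := ∀ (k : ℕ) (a : Fin k → ℤ) (b : Fin k) (p p' : ℕ) (C η θ : ℝ),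
  Function.Injective a → (∀ j, a j ≠ 0) → p.Prime → p'.Prime → p ≠ p' →
  (∀ j, |a j| < (p : ℤ)) → (∀ j, |a j| < (p' : ℤ)) → 0 < C → 0 < η → 0 < θ → θ < 1 →
  ∃ (s κ B : ℝ) (z0 : ℕ), 1 ≤ s ∧ 0 < κ ∧ 0 < B ∧ ∀ z V : ℕ, z0 ≤ z → ∃ R N0 : ℕ,
  ∀ (N w M Y : ℕ) (Ψ : DirichletCharacter ℂ M) (f : ℕ → ℂ) (t : Fin k → ℝ), N0 ≤ N →
  (w : ℝ) ^ s ≤ N → 1 ≤ M → (M : ℝ) ≤ (N : ℝ) ^ (1 - θ) → (Y : ℝ) ≤ κ * Real.log N → MB f →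
  (∀ j, |t j| ≤ (N : ℝ) ^ C) → (R < Ψ.conductor ∨ B ≤ Lam a t N) →
  ∀ x y : ℕ, N ≤ x → x ≤ y → y ≤ 2 * N →
  ‖∑ m ∈ Finset.Ioc x y, (ph a t (p * m) * Gf f Ψ 0 (DY z V Y M) z w (sh (a b) (p * m))) *
    conj (ph a t (p' * m) * Gf f Ψ 0 (DY z V Y M) z w (sh (a b) (p' * m)))‖ ≤ η * N

/-- TPY-EXN (from `T_BLN`, `T_STW`, `T_XZ`, `T_XZW`). The cross sum of the exact functions.
PROOF. `T_BLN` with `2 C`, `η / 2`, `θ / 2` gives `s, κ, B, z0`; `T_STW (η κ0 / 16)` gives `z1`;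
`z = max z0 z1`; `T_STW` gives `V`, `A0`; then `R`, `N0`; `A = max A0 (2 s)`; `κ' = κ / 2`;
`X` large: for `N ≥ κ0 x`: `N ≥ N0`, `x ≤ N ^ 2`, `x ^ (1 - θ) ≤ N ^ (1 - θ / 2)`,
`|t| ≤ x ^ C ≤ N ^ (2 C)`,
`Y = ⌊κ' log x⌋ ≤ κ log N`, `w = ⌊x ^ (1 / A)⌋`, `w ^ s ≤ x ^ (1/2) ≤ N` (`KeyE.large_x`,
`KeyE.w_pow`, `CRW`). Replacing `f (sh (a b) (p m))` by `Gf` costs at most
`∑ (m ≤ y2), ‖f - Gf‖ (sh (a b) (p m)) ≤ ∑ (n' ≤ x), ‖f - Gf‖ (sh (a b) n') ≤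
∑ (n ≤ x), ‖f n - Gf n‖ + 4 |a b|` (`n' = p m ≤ x`, nonnegative terms; `Ell.MainAux.sum_sh`), same
for `p'`; all functions are bounded by 1 (`‖ph‖ ≤ 1`). -/
def T_EXN : Prop := ∀ (k : ℕ) (a : Fin k → ℤ) (b : Fin k) (p p' : ℕ) (C η κ0 θ : ℝ),
  Function.Injective a → (∀ j, a j ≠ 0) → p.Prime → p'.Prime → p ≠ p' →
  (∀ j, |a j| < (p : ℤ)) → (∀ j, |a j| < (p' : ℤ)) → 0 < C → 0 < η → 0 < κ0 → 0 < θ → θ < 1 →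
  ∃ (B A : ℝ) (R X : ℕ), 0 < B ∧ 1 ≤ A ∧
  ∀ (x N M : ℕ) (Ψ : DirichletCharacter ℂ M) (f : ℕ → ℂ) (t : Fin k → ℝ), X ≤ x →
  κ0 * x ≤ N → N ≤ x → 1 ≤ M → (M : ℝ) ≤ (x : ℝ) ^ (1 - θ) → MB f →
  (∀ j, |t j| ≤ (x : ℝ) ^ C) → dist2 f Ψ 0 ((x : ℝ) ^ (1 / A)) x ≤ 1 / A →
  (R < Ψ.conductor ∨ B ≤ Lam a t N) →
  ∀ y1 y2 : ℕ, N ≤ y1 → y1 ≤ y2 → y2 ≤ 2 * N → p * y2 ≤ x → p' * y2 ≤ x →
  ‖∑ m ∈ Finset.Ioc y1 y2, (ph a t (p * m) * f (sh (a b) (p * m))) *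
    conj (ph a t (p' * m) * f (sh (a b) (p' * m)))‖ ≤ η * N

/-- TPY-DCL. The product of two structured functions.
PROOF. `Ψ = (changeLevel χ) * (changeLevel χ')⁻¹`, so `Ψ n = χ n conj(χ' n)` for `n` prime to
`q q'`. `A ≥ A1` (so `x ^ (1/A) ≤ x ^ (1/A1)`). For `u, v` in the closed unit disc
`1 - Re (u v) ≤ 2 (1 - Re u) + 2 (1 - Re v)`. For a prime `p > x ^ (1/A1)`, `p ∤ q q'`, this with
`u = g p conj(χ p)`, `v = conj(g' p conj(χ' p))`. If `p ∣ q q'` the term is `≤ 2 / p`; there are at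
most `log (q q') / log p ≤ 2 A1` such `p` (`p > x ^ (1/A1)`, `q q' ≤ x ^ 2`). So the left side is
`≤ 4 / A + 4 A1 x ^ (-1/A1) ≤ 1 / A1` for `A = 8 A1` and large `x`. (`nit 0 p = 1` for `p ≥ 1`.) -/
def T_DCL : Prop := ∀ A1 : ℝ, 1 ≤ A1 → ∃ (A : ℝ) (X : ℕ), A1 ≤ A ∧ ∀ (x q q' : ℕ)
  (χ : DirichletCharacter ℂ q) (χ' : DirichletCharacter ℂ q') (g g' : ℕ → ℂ), X ≤ x → MB g →
  MB g' → 1 ≤ q → 1 ≤ q' → Nat.lcm q q' ≤ x →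
  dist2 g χ 0 ((x : ℝ) ^ (1 / A)) x ≤ 1 / A → dist2 g' χ' 0 ((x : ℝ) ^ (1 / A)) x ≤ 1 / A →
  MB (fun n => g n * conj (g' n)) ∧ ∃ Ψ : DirichletCharacter ℂ (Nat.lcm q q'),
  (∀ n : ℕ, n.Coprime (q * q') → Ψ n = χ n * conj (χ' n)) ∧
  dist2 (fun n => g n * conj (g' n)) Ψ 0 ((x : ℝ) ^ (1 / A1)) x ≤ 1 / A1

/-- the twist with a function: `g(n + a_b) ∏ (n + a_j)^{i t_j}` -/
noncomputable def Wg {k : ℕ} (a : Fin k → ℤ) (b : Fin k) (g : ℕ → ℂ) (t : Fin k → ℝ) (n : ℕ) : ℂ :=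
  g (sh (a b) n) * ph a t n

/-- TPY-YBL (from `EllTw.T_INJ`, `EllTw.T_DUAL`, `T_EXN`, `T_DCL`). The number of separated twists
that correlate with a fixed function on one block.
PROOF. Adapt `Pool/Agent/TPX/LBL.lean` (`main`, with `EllTw.BLK_.count`): `d = δ ^ 2 / 2`, the
vectors are `w_e m = Wg (p m) conj (Wg (p' m))`. For two points with
`d N < ‖∑ w_e m conj (w_e' m)‖` apply `T_EXN` (`C + 1`, `η = d / 2`) to `f = g conj g'`, the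
difference `t - t'` and the `Ψ` of `T_DCL` mod `M = lcm q q'` (`w_e conj w_e' = (ph (t - t') f)(p m)
conj((ph (t - t') f)(p' m))`, `nit` of a difference, `m ≥ 1`): it follows that
`Ψ.conductor ≤ R` and `Lam a (t - t') N < B0`. So `χ n conj(χ' n) = Ψ.primitiveCharacter n` for
`n` prime to `q q'`, a character of modulus `≤ R`; the rest of the proof is the same
(`|tau| < B0 N ^ l ≤ B0 x ^ l`). `δ x ≥ δ N`; `A` is the one of `T_DCL` for `A1` of `T_EXN`. Wlog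
`θ ≤ 1/2` (`min θ (1/2)`). -/
def T_YBL : Prop := ∀ (k : ℕ) (a : Fin k → ℤ) (b : Fin k) (p p' : ℕ) (C δ κ0 θ : ℝ),
  Function.Injective a → (∀ j, a j ≠ 0) → p.Prime → p'.Prime → p ≠ p' →
  (∀ j, |a j| < (p : ℤ)) → (∀ j, |a j| < (p' : ℤ)) → 0 < C → 0 < δ → 0 < κ0 → 0 < θ →
  ∃ (K X : ℕ) (B A : ℝ), 0 ≤ B ∧ 1 ≤ A ∧ ∀ x N : ℕ, X ≤ x → κ0 * x ≤ N → N ≤ x →
  ∀ y1 y2 : ℕ, N ≤ y1 → y1 ≤ y2 → y2 ≤ 2 * N → p * y2 ≤ x → p' * y2 ≤ x →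
  ∀ (β : ℕ → ℂ) (S : Finset (EllTw.Pt k)) (g : EllTw.Pt k → ℕ → ℂ), (∀ m, ‖β m‖ ≤ 1) →
  (∀ e ∈ S, 1 ≤ e.q ∧ (∀ j, |e.t j| ≤ (x : ℝ) ^ C) ∧ MB (g e) ∧
    dist2 (g e) e.χ 0 ((x : ℝ) ^ (1 / A)) x ≤ 1 / A ∧
    δ * x < ‖∑ m ∈ Finset.Ioc y1 y2, β m * (Wg a b (g e) e.t (p * m) *
      conj (Wg a b (g e) e.t (p' * m)))‖) →
  (∀ e ∈ S, ∀ e' ∈ S, ((Nat.lcm e.q e'.q : ℕ) : ℝ) ≤ (x : ℝ) ^ (1 - θ)) →
  (∀ e ∈ S, ∀ e' ∈ S, e ≠ e' → EllTw.Same e.χ e'.χ →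
    ∃ l ∈ Finset.Icc 1 k, B * (x : ℝ) ^ l < |tau a (fun j => e.t j - e'.t j) l|) →
  S.card ≤ K

/-- TPY-YTW (from `T_KAT`, `T_YBL`). The theorem for natural numbers `x`.
PROOF. Adapt `Pool/Agent/TPX/LTW.lean` (`blk_unif`, `core`), with `T_YBL` (`κ0 = κ` there; the
constant `A` is the maximum over the pairs: `dist2 .. (x ^ (1/A)) x ≤ 1/A` is stronger for larger
`A`: its range of primes is larger and its bound smaller, the terms are `≥ 0`). Blocks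
`(lo, hi]` with `hi ≤ x / max p q`, so `p * hi ≤ x`; `N = lo ≤ x`. Choose `g e` for the bad points
by `choose!`. -/
def T_YTW : Prop := ∀ (k : ℕ) (a : Fin k → ℤ) (b : Fin k) (C ε θ : ℝ),
  Function.Injective a → (∀ j, a j ≠ 0) → 0 < C → 0 < ε → 0 < θ →
  ∃ (J X : ℕ) (B A : ℝ), 1 ≤ A ∧ ∀ x : ℕ, X ≤ x → ∀ D : ℕ → ℂ, (∀ n, ‖D n‖ ≤ 1) →
  ∀ S : Finset (EllTw.Pt k),
  (∀ e ∈ S, 1 ≤ e.q ∧ (∀ j, |e.t j| ≤ (x : ℝ) ^ C) ∧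
    ∃ f g : ℕ → ℂ, MB f ∧ MB g ∧ dist2 g e.χ 0 ((x : ℝ) ^ (1 / A)) x ≤ 1 / A ∧
      ε * x < ‖∑ m ∈ Finset.Icc 1 x, f m * (D m * Wg a b g e.t m)‖) →
  (∀ e ∈ S, ∀ e' ∈ S, ((Nat.lcm e.q e'.q : ℕ) : ℝ) ≤ (x : ℝ) ^ (1 - θ)) →
  (∀ e ∈ S, ∀ e' ∈ S, e ≠ e' → EllTw.Same e.χ e'.χ →
    ∃ l ∈ Finset.Icc 1 k, B * (x : ℝ) ^ l < |tau a (fun j => e.t j - e'.t j) l|) →
  S.card ≤ J

/-- TPY-YFI (from `T_YTW`). The final theorem.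
PROOF. Adapt `Pool/Agent/TPX/LFI.lean`; `δ = 1 / (2 A)`: for `N = ⌊x⌋` and large `x`,
`x ^ δ ≤ N ^ (1 / A)` (`x ≤ N ^ 2`), so `dist2 g χ 0 (N ^ (1/A)) N ≤` the sum in the statement
`≤ δ ≤ 1 / A` (nonnegative terms, `nit 0 p = 1`). -/
def T_YFI : Prop := ∀ (k : ℕ) (h : Fin (k + 1) → ℕ), Function.Injective h →
    ∀ (b : Fin k) (C ε θ : ℝ), 0 < ε → 0 < θ →
    ∃ (δ : ℝ) (J : ℕ) (B X : ℝ), 0 < δ ∧ ∀ x : ℝ, X ≤ x → ∀ Q : Set ℕ,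
    (∀ q ∈ Q, ∀ q' ∈ Q, (Nat.lcm q q' : ℝ) ≤ x ^ (1 - θ)) →
    ∀ D : ℕ → ℂ, (∀ n, ‖D n‖ ≤ 1) →
    ∃ S : Finset (Σ r : ℕ, DirichletCharacter ℂ r × (Fin k → ℝ)), S.card ≤ J ∧
      (∀ e ∈ S, 1 ≤ e.1 ∧ e.1 ∈ Q) ∧
      ∀ (q : ℕ) (χ : DirichletCharacter ℂ q) (t : Fin k → ℝ), 1 ≤ q → q ∈ Q →
        (∀ j, |t j| ≤ x ^ C) →
        (∃ e ∈ S, (∀ n : ℕ, n.Coprime (q * e.1) → χ n = e.2.1 n) ∧
          ∀ l ∈ Finset.Icc 1 k,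
            |∑ j, (t j - e.2.2 j) * ((h j.succ : ℝ) - h 0) ^ l| ≤ B * x ^ l) ∨
        ∀ f g : ArithmeticFunction ℂ, f.IsMultiplicative → g.IsMultiplicative →
          (∀ n, ‖f n‖ ≤ 1) → (∀ n, ‖g n‖ ≤ 1) →
          ∑ p ∈ (Finset.Iic ⌊x⌋₊).filter (fun p : ℕ => p.Prime ∧ x ^ δ < p),
            (1 - (g p * (starRingEnd ℂ) (χ (p : ZMod q))).re) / (p : ℝ) ≤ δ →
          ‖∑ n ∈ Finset.Icc 1 ⌊x⌋₊, D n * f (n + h 0) * g (n + h b.succ) *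
            ∏ j, ((n + h j.succ : ℕ) : ℂ) ^ ((t j : ℂ) * Complex.I)‖ / x ≤ ε

end Pool.Agent.TPY
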